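import Mathlib

/-! A product of conjugates of the shift of a wreath product. -/

set_option autoImplicit false

namespace Pool.Agent.KS6_35.OR

variable {K : Type} [Group K]

/-- the wreath product `ℤ ≀ K` (unrestricted) -/
abbrev Wr (K : Type) [Group K] : Type := (K → Multiplicative ℤ) ⋊[mulAutArrow (G := K)] K

open Classical in
/-- the function which is `1` at `g` and `0` elsewhere -/
noncomputable def dl (g : K) : K → Multiplicative ℤ := fun h => if h = g then Multiplicative.ofAdd 1 else 1

/-- the generator of the base -/
noncomputable def sg (K : Type) [Group K] : Wr K := SemidirectProduct.inl (dl 1)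

theorem conj_sg (w : Wr K) : w * sg K * w⁻¹ = SemidirectProduct.inl (dl w.right) := by
  classical
  unfold sg
  ext x
  · simp only [SemidirectProduct.mul_left, SemidirectProduct.mul_right, SemidirectProduct.left_inl,
      SemidirectProduct.right_inl, mul_one, SemidirectProduct.inv_left, Pi.mul_apply]
    rw [← MulAut.mul_apply, ← map_mul, mul_inv_cancel, map_one]
    have h1 : (1 : MulAut (K → Multiplicative ℤ)) w.left⁻¹ x = (w.left x)⁻¹ := rfl
    have h2 : (mulAutArrow (G := K) (A := K) (M := Multiplicative ℤ) w.right) (dl 1) x =
      dl 1 (w.right⁻¹ * x) := rfl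
    rw [h1, h2, mul_comm (w.left x), mul_assoc, mul_inv_cancel, mul_one]
    unfold dl
    simp only [inv_mul_eq_iff_eq_mul, mul_one]
  · simp

open Classical in
theorem list_prod (L : List (Wr K)) :
    (L.map (fun w => w * sg K * w⁻¹)).prod =
      SemidirectProduct.inl (fun h => Multiplicative.ofAdd ((L.countP (fun w => w.right = h) : ℕ) : ℤ)) := by
  induction L with
  | nil =>
    simp only [List.map_nil, List.prod_nil, List.countP_nil, Nat.cast_zero, ofAdd_zero]
    exact (map_one _).symm
  | cons w L ih =>
    rw [List.map_cons, List.prod_cons, ih, conj_sg, ← map_mul]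
    congr 1
    funext h
    simp only [Pi.mul_apply, dl, List.countP_cons, decide_eq_true_eq]
    by_cases hw : h = w.right
    · subst hw
      simp only [if_true]
      rw [← ofAdd_add]
      congr 1
      push_cast; ring
    · rw [if_neg hw, if_neg (fun h' => hw h'.symm)]
      simp

/-- a product of conjugates of the shift which is a power of the shift -/
theorem all_one (L : List (Wr K)) (h : (L.map (fun w => w * sg K * w⁻¹)).prod = sg K ^ L.length) :
    ∀ w ∈ L, w.right = 1 := by
  classical
  rw [list_prod] at h
  unfold sg at h
  rw [← map_pow] at h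
  have h1 := SemidirectProduct.inl_injective h
  have h2 := congrFun h1 1
  simp only [Pi.pow_apply, dl, if_true] at h2
  have h3 : ((L.countP (fun w => w.right = 1) : ℕ) : ℤ) = L.length := by
    have := congrArg Multiplicative.toAdd h2
    simpa using this
  have h4 : L.countP (fun w => w.right = 1) = L.length := by exact_mod_cast h3
  rw [List.countP_eq_length] at h4
  intro w hw
  simpa using h4 w hw

end Pool.Agent.KS6_35.OR
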