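import Pool.Agent.KS6_35.OR.Rep
import Pool.Agent.KS6_35.OR.Wr
import Pool.Graph.R_seed8.Helper844.DPRM

/-! The main theorem for a group with a suitable homomorphism. -/

set_option autoImplicit false

namespace Pool.Agent.KS6_35.OR

open MvPolynomial

/-- Every `Poly` of Mathlib is the evaluation of a multivariate polynomial. -/
theorem exists_mvPoly {α : Type} (p : Poly α) :
    ∃ Q : MvPolynomial α ℤ, ∀ t : α → ℕ, p t = eval (fun i => (t i : ℤ)) Q := by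
  refine Poly.induction (C := fun p => ∃ Q : MvPolynomial α ℤ, ∀ t : α → ℕ,
    p t = eval (fun i => (t i : ℤ)) Q) ?_ ?_ ?_ ?_ p
  · intro i
    exact ⟨X i, fun t => by simp⟩
  · intro n
    exact ⟨C n, fun t => by simp⟩
  · rintro f g ⟨Q, hQ⟩ ⟨R, hR⟩
    exact ⟨Q - R, fun t => by simp [hQ, hR]⟩
  · rintro f g ⟨Q, hQ⟩ ⟨R, hR⟩
    exact ⟨Q * R, fun t => by simp [hQ, hR]⟩

theorem dprm_fin (S : ℕ → Prop) (hS : REPred S) : ∃ (m : ℕ) (Q : MvPolynomial (Fin (m + 1)) ℤ),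
    ∀ k : ℕ, S k ↔ ∃ i : Fin (m + 1) → ℕ, i 0 = k ∧ eval (fun l => ((i l : ℕ) : ℤ)) Q = 0 := by
  classical
  obtain ⟨δ, hδ, p, hp⟩ := Pool.Agent.Helper844.Dio.finite_dummies
    (Pool.Agent.Helper844.Dio.dprm hS)
  obtain ⟨Q, hQ⟩ := exists_mvPoly p
  let e : δ ≃ Fin (Fintype.card δ) := Fintype.equivFin δ
  let g : Unit ⊕ δ → Fin (Fintype.card δ + 1) := Sum.elim (fun _ => 0) (fun d => (e d).succ)
  refine ⟨Fintype.card δ, rename g Q, fun k => ?_⟩
  have h := hp (fun _ => k)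
  rw [show ((fun _ => k) ∈ {v : Unit → ℕ | S (v ())} ↔ S k) from Iff.rfl] at h
  rw [h]
  constructor
  · rintro ⟨t, ht⟩
    refine ⟨Fin.cons k fun l => t (e.symm l), rfl, ?_⟩
    rw [eval_rename, ← ht, hQ]
    congr 2
    funext i
    rcases i with i | d
    · simp [g]
    · simp [g]
  · rintro ⟨i, hi, hQ0⟩
    refine ⟨fun d => i (e d).succ, ?_⟩
    rw [hQ, ← hQ0, eval_rename]
    congr 2
    funext x
    rcases x with x | d
    · simp [g, hi]
    · simp [g]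

/-- The bounded solutions of a polynomial equation are given by the arithmetical conditions. -/
theorem arith {m : ℕ} (Q : MvPolynomial (Fin (m + 1)) ℤ) : ∃ (D₀ : ℕ)
    (N : MvPolynomial (Fin (m + 1)) ℤ) (d : ℕ), ∀ n k : ℕ,
      (∃ i : Fin (m + 1) → ℕ, i 0 = k ∧ ∑ l, i l < 2 ^ n ∧
        eval (fun l => ((i l : ℕ) : ℤ)) Q = 0) ↔
      ∃ ρ : Env, ρ.k = k ∧ ρ.n = n ∧ Cond D₀ N d ρ := by
  let R : MvPolynomial (Fin (m + 1)) ℤ := 1 + 2 * Q ^ 2
  have hRe : ∀ i : Fin (m + 1) → ℕ, eval (fun l => ((i l : ℕ) : ℤ)) R =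
      1 + 2 * (eval (fun l => ((i l : ℕ) : ℤ)) Q) ^ 2 := by
    intro i
    simp only [R, map_add, map_mul, map_pow, map_one, map_ofNat]
  have hR1 : ∀ i : Fin (m + 1) → ℕ, 1 ≤ eval (fun l => ((i l : ℕ) : ℤ)) R := by
    intro i
    rw [hRe]
    nlinarith [sq_nonneg (eval (fun l => ((i l : ℕ) : ℤ)) Q)]
  have hR2 : ∀ i : Fin (m + 1) → ℕ, eval (fun l => ((i l : ℕ) : ℤ)) R = 1 ↔
      eval (fun l => ((i l : ℕ) : ℤ)) Q = 0 := by
    intro i
    rw [hRe]
    constructor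
    · intro h
      have : (eval (fun l => ((i l : ℕ) : ℤ)) Q) ^ 2 = 0 := by linarith
      exact pow_eq_zero_iff (by norm_num) |>.1 this
    · intro h
      rw [h]; norm_num
  obtain ⟨D₀, d, N, hcore⟩ := core R hR1
  refine ⟨D₀, N, d, fun n k => ?_⟩
  have hDn : D₀ ≤ 2 ^ (n + D₀) := by
    have : n + D₀ < 2 ^ (n + D₀) := Nat.lt_two_pow_self
    omega
  have hnD : 2 ^ n ≤ 2 ^ (n + D₀) := Nat.pow_le_pow_right (by norm_num) (by omega)
  constructor
  · rintro ⟨i, hi0, hsum, hi⟩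
    have hJ' := pos_lt (m := m) (D := 2 ^ (n + D₀)) i hsum hnD
    have hJ := lt_of_lt_of_le hJ' (Nat.mul_le_mul_left ((2 ^ (n + D₀)) ^ (m + 1)) hnD)
    have hc0 := coord_zero hJ rfl
    have hk : k ≤ ∑ l, i l := by
      rw [← hi0]
      exact Finset.single_le_sum (f := i) (fun _ _ => Nat.zero_le _) (Finset.mem_univ 0)
    obtain ⟨v, hv1, hv2⟩ := (hcore (2 ^ (n + D₀)) hDn _ hJ).2 ⟨i, rfl, (hR2 i).2 hi⟩
    let ρ : Env := ⟨n, pos m (2 ^ (n + D₀)) i / 2 ^ (n + D₀), v, k⟩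
    have hptr : ptr D₀ ρ = pos m (2 ^ (n + D₀)) i := by
      have := Nat.mod_add_div' (pos m (2 ^ (n + D₀)) i) (2 ^ (n + D₀))
      rw [← hc0, hi0] at this
      exact this
    refine ⟨ρ, rfl, rfl, ?_, ?_, ?_, ?_⟩
    · change k < 2 ^ (n + D₀); omega
    · rw [hptr]; exact hJ'
    · rw [hptr]; exact hv1
    · unfold bigT
      rw [hptr]
      exact hv2
  · rintro ⟨ρ, rfl, rfl, c2, c3, c4, c5⟩
    have c3' : ptr D₀ ρ < bigD D₀ ρ ^ (m + 1) * bigD D₀ ρ :=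
      lt_of_lt_of_le c3 (Nat.mul_le_mul_left _ hnD)
    obtain ⟨i, hi1, hi2⟩ := (hcore (bigD D₀ ρ) hDn _ c3').1 ⟨ρ.v, c4, c5⟩
    refine ⟨i, ?_, ?_, (hR2 i).1 hi2⟩
    · rw [coord_zero c3' hi1]
      unfold ptr
      rw [Nat.add_mul_mod_self_right, Nat.mod_eq_of_lt c2]
    · exact sum_lt_of_pos_lt (m := m) (D := bigD D₀ ρ) (by rw [hi1]; exact c3)

/-- the main theorem for a group `G` with a homomorphism to the wreath product -/
theorem main_abs {m : ℕ} (Q : MvPolynomial (Fin (m + 1)) ℤ) : ∃ w : Wd,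
    ∀ (G : Type) [Group G] (a t s : G), bb t a * a * (bb t a)⁻¹ = a ^ 2 →
      ∀ ψ : G →* Wr Gh, ψ a = SemidirectProduct.inr (em 1 0) →
        ψ t = SemidirectProduct.inr st → ψ s = sg Gh → ∀ k : ℕ,
      (∀ n : ℕ, (∃ x : G, FreeGroup.lift (Sum.elim ![a, t, s] ![x, a ^ n, a ^ k]) w = 1) ↔
        ∃ i : Fin (m + 1) → ℕ, i 0 = k ∧ ∑ l, i l < 2 ^ n ∧
          eval (fun l => ((i l : ℕ) : ℤ)) Q = 0) ∧
      ((∃ x y : G, FreeGroup.lift (Sum.elim ![a, t, s] ![x, y, a ^ k]) w = 1) ↔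
        ∃ i : Fin (m + 1) → ℕ, i 0 = k ∧ eval (fun l => ((i l : ℕ) : ℤ)) Q = 0) := by
  obtain ⟨D₀, N, d, hA⟩ := arith Q
  obtain ⟨L, hL1, hL2⟩ := exists_tests D₀ N d
  refine ⟨(L.map fun w => w * wS * w⁻¹).prod * (wS ^ L.length)⁻¹,
    fun G _ a t s hrel ψ ha ht hs k => ?_⟩
  have hcomp : ∀ n : ℕ, (∃ i : Fin (m + 1) → ℕ, i 0 = k ∧ ∑ l, i l < 2 ^ n ∧
      eval (fun l => ((i l : ℕ) : ℤ)) Q = 0) → ∃ x : G,
        FreeGroup.lift (Sum.elim ![a, t, s] ![x, a ^ n, a ^ k])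
          ((L.map fun w => w * wS * w⁻¹).prod * (wS ^ L.length)⁻¹) = 1 := by
    intro n hk
    obtain ⟨ρ, rfl, rfl, hc⟩ := (hA n k).1 hk
    let x : G := a ^ (ρ.v : ℤ) * t * a ^ (ρ.j : ℤ)
    refine ⟨x, ?_⟩
    let F : Wd →* G := FreeGroup.lift (Sum.elim ![a, t, s] ![x, a ^ ρ.n, a ^ ρ.k])
    change F _ = 1
    have fA : F wA = a := by simp [F, wA]
    have fT : F wT = t := by simp [F, wT]
    have fS : F wS = s := by simp [F, wS]
    have fX : F wX = x := by simp [F, wX]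
    have fY : F wY = a ^ ρ.n := by simp [F, wY]
    have fP : F wP = a ^ ρ.k := by simp [F, wP]
    have hg : Good a t F ρ := by
      refine ⟨hrel, fA, fT, ?_, ?_, ?_, ?_⟩
      · rw [map_rU, fA, fT, fX]; exact rU_eq hrel _ _
      · rw [map_rS, fA, fT, fX]; exact rS_eq hrel _ _
      · rw [fY, zpow_natCast]
      · rw [fP, zpow_natCast]
    have h1 := hL1 G a t F ρ hg hc
    rw [map_mul, map_list_prod, List.map_map, map_inv, map_pow, fS]
    have h2 : List.map (F ∘ fun w => w * wS * w⁻¹) L = List.map (fun _ => s) L := by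
      refine List.map_congr_left fun w hw => ?_
      simp only [Function.comp, map_mul, map_inv, h1 w hw, fS]
      simp
    rw [h2, List.map_const', List.prod_replicate, mul_inv_cancel]
  have hsound : ∀ x y : G, FreeGroup.lift (Sum.elim ![a, t, s] ![x, y, a ^ k])
      ((L.map fun w => w * wS * w⁻¹).prod * (wS ^ L.length)⁻¹) = 1 →
        ∃ ρ : Env, ρ.k = k ∧ (ψ y).right = (em 1 0) ^ (ρ.n : ℤ) ∧ Cond D₀ N d ρ := by
    intro x y h
    let F : Wd →* G := FreeGroup.lift (Sum.elim ![a, t, s] ![x, y, a ^ k])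
    change F _ = 1 at h
    have fA : F wA = a := by simp [F, wA]
    have fT : F wT = t := by simp [F, wT]
    have fS : F wS = s := by simp [F, wS]
    have fP : F wP = a ^ k := by simp [F, wP]
    have fY : F wY = y := by simp [F, wY]
    let Φ : Wd →* Wr Gh := ψ.comp F
    have h1 := congrArg ψ h
    change Φ _ = _ at h1
    have gS : Φ wS = sg Gh := by
      change ψ (F wS) = _
      rw [fS, hs]
    rw [map_mul, map_list_prod, List.map_map, map_inv, map_pow, gS, map_one, mul_inv_eq_one] at h1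
    have h2 : List.map (Φ ∘ fun w => w * wS * w⁻¹) L =
        List.map (fun w => w * sg Gh * w⁻¹) (L.map Φ) := by
      rw [List.map_map]
      refine List.map_congr_left fun w _ => ?_
      simp only [Function.comp, map_mul, map_inv, gS]
    rw [h2] at h1
    have h3 := all_one (L.map Φ) (by rw [List.length_map]; exact h1)
    let F' : Wd →* Gh := SemidirectProduct.rightHom.comp Φ
    obtain ⟨ρ, hρ, hy, hc⟩ := hL2 F' k
      (by change SemidirectProduct.rightHom (ψ (F wA)) = _; rw [fA, ha]; simp)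
      (by change SemidirectProduct.rightHom (ψ (F wT)) = _; rw [fT, ht]; simp)
      (by change SemidirectProduct.rightHom (ψ (F wP)) = _
          rw [fP, map_pow, map_pow, ha, SemidirectProduct.rightHom_inr, zpow_natCast])
      (fun w hw => h3 (Φ w) (List.mem_map_of_mem hw))
    refine ⟨ρ, hρ, ?_, hc⟩
    have : F' wY = (ψ y).right := by
      change SemidirectProduct.rightHom (ψ (F wY)) = _
      rw [fY]; rfl
    rw [← this]; exact hy
  refine ⟨fun n => ⟨?_, hcomp n⟩, ?_, ?_⟩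
  · rintro ⟨x, h⟩
    obtain ⟨ρ, hρ, hy, hc⟩ := hsound x (a ^ n) h
    rw [map_pow, ha, ← map_pow, SemidirectProduct.right_inr, ← zpow_natCast, em_zpow, em_zpow] at hy
    have h1 := (em_inj hy).1
    have h2 : n = ρ.n := by exact_mod_cast h1
    exact (hA n k).2 ⟨ρ, hρ, h2.symm, hc⟩
  · rintro ⟨x, y, h⟩
    obtain ⟨ρ, hρ, -, hc⟩ := hsound x y h
    obtain ⟨i, h1, -, h2⟩ := (hA ρ.n k).2 ⟨ρ, hρ, rfl, hc⟩
    exact ⟨i, h1, h2⟩
  · rintro ⟨i, h1, h2⟩
    obtain ⟨x, hx⟩ := hcomp (∑ l, i l) ⟨i, h1, Nat.lt_two_pow_self, h2⟩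
    exact ⟨x, _, hx⟩

end Pool.Agent.KS6_35.OR
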