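import Pool.Agent.KS6_35.OR.Defs
import Pool.Agent.KS6_35.OR.Main

/-! The main theorem for the one-relator group, and substitutions in words. -/

set_option autoImplicit false

namespace Pool.Agent.KS6_35.OR.Eqs

open MvPolynomial

/-- substitute `aᵏ` for the last letter -/
def subst (k : ℕ) (w : Word 3) : Word 2 :=
  w.flatMap fun l => match l.1 with
    | Sum.inl i => [(Sum.inl i, l.2)]
    | Sum.inr j => if j = 0 then [(Sum.inr 0, l.2)] else if j = 1 then [(Sum.inr 1, l.2)] else
        List.replicate k (Sum.inl 0, l.2)

theorem value_subst (k : ℕ) (w : Word 3) (x y : G) :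
    value ![x, y] (subst k w) = value ![x, y, a ^ k] w := by
  unfold value
  rw [FreeGroup.lift_mk, FreeGroup.lift_mk]
  induction w with
  | nil => rfl
  | cons l w ih =>
    unfold subst at ih ⊢
    rw [List.flatMap_cons, List.map_append, List.prod_append, ih, List.map_cons, List.prod_cons]
    congr 1
    obtain ⟨l, b⟩ := l
    rcases l with i | j
    · simp
    · fin_cases j
      · simp
      · simp
      · cases b
        · simp [a]
        · simp [a]

theorem computable_replicate {β : Type} [Primcodable β] (b : β) :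
    Primrec fun k : ℕ => List.replicate k b := by
  have : (fun k : ℕ => List.replicate k b) = fun k => (List.range k).map fun _ => b := by
    funext k
    simp
  rw [this]
  exact Primrec.list_map Primrec.list_range (Primrec.const b).to₂

theorem computable_subst (w : Word 3) : Computable fun k : ℕ => subst k w := by
  apply Primrec.to_comp
  induction w with
  | nil => exact Primrec.const []
  | cons l w ih =>
    have h : (fun k : ℕ => subst k (l :: w)) = fun k => subst k [l] ++ subst k w := by
      funext k
      simp [subst]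
    rw [h]
    refine Primrec.list_append.comp ?_ ih
    obtain ⟨l, b⟩ := l
    rcases l with i | j
    · exact (Primrec.const [(Sum.inl i, b)]).of_eq fun k => by simp [subst]
    · fin_cases j
      · exact (Primrec.const [(Sum.inr 0, b)]).of_eq fun k => by simp [subst]
      · exact (Primrec.const [(Sum.inr 1, b)]).of_eq fun k => by simp [subst]
      · exact (computable_replicate ((Sum.inl 0, b) : (Fin 3 ⊕ Fin 2) × Bool)).of_eq
          fun k => by simp [subst]

theorem rel_G : bb (PresentedGroup.of 1 : G) a * a * (bb (PresentedGroup.of 1 : G) a)⁻¹ = a ^ 2 := by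
  have h : (PresentedGroup.mk ({relator} : Set (FreeGroup (Fin 3)))) (FreeGroup.of 1 *
      FreeGroup.of 0 * (FreeGroup.of 1)⁻¹ * FreeGroup.of 0 *
      (FreeGroup.of 1 * FreeGroup.of 0 * (FreeGroup.of 1)⁻¹)⁻¹ * (FreeGroup.of 0)⁻¹ *
      (FreeGroup.of 0)⁻¹) = 1 :=
    PresentedGroup.one_of_mem (rels := ({relator} : Set (FreeGroup (Fin 3)))) rfl
  simp only [map_mul, map_inv] at h
  change (PresentedGroup.of 1 : G) * PresentedGroup.of 0 * (PresentedGroup.of 1)⁻¹ *
    PresentedGroup.of 0 * (PresentedGroup.of 1 * PresentedGroup.of 0 *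
      (PresentedGroup.of 1)⁻¹)⁻¹ * (PresentedGroup.of 0)⁻¹ * (PresentedGroup.of 0)⁻¹ = 1 at h
  rw [mul_inv_eq_one, mul_inv_eq_iff_eq_mul] at h
  unfold bb a
  rw [sq]
  exact h

/-- the homomorphism to the wreath product -/
noncomputable def psi : G →* Wr Gh :=
  PresentedGroup.toGroup (f := ![SemidirectProduct.inr (em 1 0), SemidirectProduct.inr st, sg Gh])
    (by
      intro r hr
      rw [Set.mem_singleton_iff] at hr
      subst hr
      unfold relator
      simp only [map_mul, map_inv, FreeGroup.lift_apply_of, Matrix.cons_val_zero,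
        Matrix.cons_val_one]
      have h := congrArg (SemidirectProduct.inr : Gh →* Wr Gh) rel_Gh
      unfold bb at h
      simp only [map_mul, map_inv, map_pow] at h
      rw [h]
      group)

/-- one polynomial equation, one word -/
theorem key (m : ℕ) (P : MvPolynomial (Fin (m + 1)) ℤ) : ∃ w : Word 3, ∀ k : ℕ,
      (∀ n : ℕ, (∃ x : G, value ![x, a ^ n, a ^ k] w = 1) ↔
        ∃ i : Fin (m + 1) → ℕ, i 0 = k ∧ ∑ l, i l < 2 ^ n ∧ eval (fun l => (i l : ℤ)) P = 0) ∧
      ((∃ x y : G, value ![x, y, a ^ k] w = 1) ↔
        ∃ i : Fin (m + 1) → ℕ, i 0 = k ∧ eval (fun l => (i l : ℤ)) P = 0) := by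
  obtain ⟨w, hw⟩ := main_abs P
  refine ⟨w.toWord, fun k => ?_⟩
  have h := hw G a (PresentedGroup.of 1) (PresentedGroup.of 2) rel_G psi
    (by unfold psi a; rw [PresentedGroup.toGroup.of]; rfl)
    (by unfold psi; rw [PresentedGroup.toGroup.of]; rfl)
    (by unfold psi; rw [PresentedGroup.toGroup.of]; rfl) k
  have hv : ∀ g : Fin 3 → G, value g w.toWord = FreeGroup.lift (Sum.elim ![a, PresentedGroup.of 1,
      PresentedGroup.of 2] g) w := by
    intro g
    unfold value
    rw [FreeGroup.mk_toWord]
    congr 2
    funext l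
    fin_cases l <;> rfl
  simp only [hv]
  exact h

/-- the halting problem as a set of natural numbers -/
def Halt (n : ℕ) : Prop :=
  ((Nat.Partrec.Code.eval (Denumerable.ofNat Nat.Partrec.Code n)) 0).Dom

theorem rePred_halt : REPred Halt := by
  have h1 : Partrec fun n : ℕ => Nat.Partrec.Code.eval (Denumerable.ofNat Nat.Partrec.Code n) 0 :=
    Nat.Partrec.Code.eval_part.comp (Computable.ofNat Nat.Partrec.Code) (Computable.const 0)
  exact h1.dom_re

theorem not_computable_halt : ¬ ComputablePred Halt := by
  intro h
  refine ComputablePred.halting_problem 0 ?_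
  have : ManyOneReducible (fun c : Nat.Partrec.Code => (Nat.Partrec.Code.eval c 0).Dom) Halt := by
    refine ⟨Encodable.encode, Computable.encode, ?_⟩
    intro c
    simp [Halt, Denumerable.ofNat_encode]
  exact ComputablePred.computable_of_manyOneReducible this h

end Pool.Agent.KS6_35.OR.Eqs
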