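import Mathlib

/-! Positions `∑ i_l (D ^ (m + 1) + D ^ l)`: a tuple with sum less than `D` is determined by its
position. -/

set_option autoImplicit false

namespace Pool.Agent.KS6_35.OR

/-- the weight of the coordinate `l` -/
def wt (m D : ℕ) (l : Fin (m + 1)) : ℕ := D ^ (m + 1) + D ^ (l : ℕ)

/-- the position of the tuple `i` -/
def pos (m D : ℕ) (i : Fin (m + 1) → ℕ) : ℕ := ∑ l, i l * wt m D l

theorem pos_eq (m D : ℕ) (i : Fin (m + 1) → ℕ) :
    pos m D i = D ^ (m + 1) * ∑ l, i l + ∑ l, i l * D ^ (l : ℕ) := by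
  unfold pos wt
  simp_rw [mul_add]
  rw [Finset.sum_add_distrib, Finset.mul_sum]
  congr 1
  exact Finset.sum_congr rfl fun l _ => mul_comm _ _

theorem digits_unique (D : ℕ) : ∀ (n : ℕ) (i j : Fin n → ℕ), (∀ l, i l < D) → (∀ l, j l < D) →
    ∑ l, i l * D ^ (l : ℕ) = ∑ l, j l * D ^ (l : ℕ) → i = j := by
  intro n
  induction n with
  | zero => intro i j _ _ _; funext l; exact l.elim0
  | succ n ih =>
    intro i j hi hj h
    rw [Fin.sum_univ_succ, Fin.sum_univ_succ] at h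
    simp only [Fin.val_zero, pow_zero, mul_one, Fin.val_succ, pow_succ] at h
    have hs : ∀ f : Fin (n + 1) → ℕ, ∑ x : Fin n, f x.succ * (D ^ (x : ℕ) * D) =
        D * ∑ x : Fin n, f x.succ * D ^ (x : ℕ) := by
      intro f
      rw [Finset.mul_sum]
      exact Finset.sum_congr rfl fun x _ => by ring
    rw [hs, hs] at h
    have hD : 0 < D := lt_of_le_of_lt (Nat.zero_le _) (hi 0)
    have h0 : i 0 = j 0 := by
      have := congrArg (· % D) h
      simpa [Nat.mod_eq_of_lt (hi 0), Nat.mod_eq_of_lt (hj 0)] using this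
    rw [h0] at h
    have h1 := Nat.eq_of_mul_eq_mul_left hD (Nat.add_left_cancel h)
    have h2 := ih (fun x => i x.succ) (fun x => j x.succ) (fun x => hi _) (fun x => hj _) h1
    funext l
    refine Fin.cases h0 (fun x => ?_) l
    exact congrFun h2 x

variable {m D J : ℕ}

theorem sum_lt (hJ : J < D ^ (m + 1) * D) {i : Fin (m + 1) → ℕ} (h : pos m D i = J) :
    ∑ l, i l < D := by
  rw [pos_eq] at h
  by_contra hc
  push Not at hc
  have := Nat.mul_le_mul_left (D ^ (m + 1)) hc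
  omega

theorem coord_lt (hJ : J < D ^ (m + 1) * D) {i : Fin (m + 1) → ℕ} (h : pos m D i = J) (l) :
    i l < D :=
  lt_of_le_of_lt (Finset.single_le_sum (fun _ _ => Nat.zero_le _) (Finset.mem_univ l))
    (sum_lt hJ h)

theorem low_lt (hJ : J < D ^ (m + 1) * D) {i : Fin (m + 1) → ℕ} (h : pos m D i = J) :
    ∑ l, i l * D ^ (l : ℕ) < D ^ (m + 1) := by
  have h1 := sum_lt hJ h
  have hD : 0 < D := by omega
  have h2 : ∑ l, i l * D ^ (l : ℕ) ≤ ∑ l, i l * D ^ m := Finset.sum_le_sum fun l _ =>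
    Nat.mul_le_mul_left _ (Nat.pow_le_pow_right hD (by omega))
  rw [← Finset.sum_mul] at h2
  calc _ ≤ (∑ l, i l) * D ^ m := h2
    _ < D * D ^ m := (Nat.mul_lt_mul_right (by positivity)).2 h1
    _ = D ^ (m + 1) := by ring

theorem pos_unique (hJ : J < D ^ (m + 1) * D) {i j : Fin (m + 1) → ℕ} (hi : pos m D i = J)
    (hj : pos m D j = J) : i = j := by
  have h1 := low_lt hJ hi
  have h2 := low_lt hJ hj
  refine digits_unique D (m + 1) i j (coord_lt hJ hi) (coord_lt hJ hj) ?_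
  have h3 : pos m D i = pos m D j := hi.trans hj.symm
  rw [pos_eq, pos_eq] at h3
  have := congrArg (· % (D ^ (m + 1))) h3
  simpa [Nat.mod_eq_of_lt h1, Nat.mod_eq_of_lt h2] using this

theorem coord_zero (hJ : J < D ^ (m + 1) * D) {i : Fin (m + 1) → ℕ} (h : pos m D i = J) :
    i 0 = J % D := by
  have h1 := coord_lt hJ h 0
  rw [← h, pos_eq, Fin.sum_univ_succ (f := fun l => i l * D ^ (l : ℕ))]
  simp only [Fin.val_zero, pow_zero, mul_one, Fin.val_succ, pow_succ]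
  have hs : ∑ x : Fin m, i x.succ * (D ^ (x : ℕ) * D) =
      D * ∑ x : Fin m, i x.succ * D ^ (x : ℕ) := by
    rw [Finset.mul_sum]
    exact Finset.sum_congr rfl fun x _ => by ring
  rw [hs]
  have : D ^ m * D * (∑ l, i l) + (i 0 + D * ∑ x : Fin m, i x.succ * D ^ (x : ℕ)) =
      i 0 + D * (D ^ m * (∑ l, i l) + ∑ x : Fin m, i x.succ * D ^ (x : ℕ)) := by ring
  rw [this, Nat.add_mul_mod_self_left, Nat.mod_eq_of_lt h1]

theorem wt_pos (hD : 0 < D) (l : Fin (m + 1)) : 1 ≤ wt m D l := by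
  unfold wt
  have : 0 < D ^ (m + 1) := by positivity
  omega

theorem coord_le_pos (hD : 0 < D) (i : Fin (m + 1) → ℕ) (l : Fin (m + 1)) : i l ≤ pos m D i := by
  unfold pos
  calc i l ≤ i l * wt m D l := Nat.le_mul_of_pos_right _ (wt_pos hD l)
    _ ≤ _ := Finset.single_le_sum (f := fun l => i l * wt m D l) (fun _ _ => Nat.zero_le _)
      (Finset.mem_univ l)

/-- every tuple with a small sum has a small position -/
theorem pos_lt (i : Fin (m + 1) → ℕ) {B : ℕ} (h : ∑ l, i l < B) (hB : B ≤ D) :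
    pos m D i < D ^ (m + 1) * B := by
  have hD : 0 < D := by omega
  rw [pos_eq]
  have h2 : ∑ l, i l * D ^ (l : ℕ) ≤ ∑ l, i l * D ^ m := Finset.sum_le_sum fun l _ =>
    Nat.mul_le_mul_left _ (Nat.pow_le_pow_right hD (by omega))
  rw [← Finset.sum_mul] at h2
  have h3 : (∑ l, i l) * D ^ m < D ^ (m + 1) := by
    calc _ < D * D ^ m := (Nat.mul_lt_mul_right (by positivity)).2 (lt_of_lt_of_le h hB)
      _ = D ^ (m + 1) := by ring
  have h4 : D ^ (m + 1) * ∑ l, i l ≤ D ^ (m + 1) * (B - 1) := Nat.mul_le_mul_left _ (by omega)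
  have h5 : D ^ (m + 1) * (B - 1) + D ^ (m + 1) = D ^ (m + 1) * B := by
    rw [← Nat.mul_succ]; congr 1; omega
  omega

theorem sum_lt_of_pos_lt {i : Fin (m + 1) → ℕ} {B : ℕ} (h : pos m D i < D ^ (m + 1) * B) :
    ∑ l, i l < B := by
  rw [pos_eq] at h
  by_contra hc
  push Not at hc
  have := Nat.mul_le_mul_left (D ^ (m + 1)) hc
  omega

open MvPolynomial in
/-- Polynomials are bounded by `2 ^ D` on the box of side `D`, for large `D`. -/
theorem poly_bound {n : ℕ} (R : MvPolynomial (Fin n) ℤ) : ∃ D₀ : ℕ, ∀ D : ℕ, D₀ ≤ D →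
    ∀ i : Fin n → ℕ, (∀ l, i l < D) → |eval (fun l => ((i l : ℕ) : ℤ)) R| < 2 ^ D := by
  have h1 : ∃ C e : ℕ, ∀ D : ℕ, 1 ≤ D → ∀ i : Fin n → ℕ, (∀ l, i l < D) →
      |eval (fun l => ((i l : ℕ) : ℤ)) R| ≤ C * (D : ℤ) ^ e := by
    induction R using MvPolynomial.induction_on with
    | C a =>
      refine ⟨a.natAbs, 0, fun D _ i _ => ?_⟩
      simp
    | add p q hp hq =>
      obtain ⟨C, e, h⟩ := hp
      obtain ⟨C', e', h'⟩ := hq
      refine ⟨C + C', e + e', fun D hD i hi => ?_⟩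
      rw [map_add]
      have hD' : (1 : ℤ) ≤ D := by exact_mod_cast hD
      have e1 : (D : ℤ) ^ e ≤ D ^ (e + e') := pow_le_pow_right₀ hD' (by omega)
      have e2 : (D : ℤ) ^ e' ≤ D ^ (e + e') := pow_le_pow_right₀ hD' (by omega)
      calc _ ≤ |eval (fun l => ((i l : ℕ) : ℤ)) p| + |eval (fun l => ((i l : ℕ) : ℤ)) q| :=
            abs_add_le _ _
        _ ≤ C * (D : ℤ) ^ e + C' * (D : ℤ) ^ e' := add_le_add (h D hD i hi) (h' D hD i hi)
        _ ≤ C * (D : ℤ) ^ (e + e') + C' * (D : ℤ) ^ (e + e') := by gcongr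
        _ = _ := by push_cast; ring
    | mul_X p l hp =>
      obtain ⟨C, e, h⟩ := hp
      refine ⟨C, e + 1, fun D hD i hi => ?_⟩
      rw [map_mul, eval_X, abs_mul]
      have h2 : |((i l : ℕ) : ℤ)| ≤ D := by
        rw [abs_of_nonneg (by positivity)]
        exact_mod_cast (hi l).le
      calc _ ≤ C * (D : ℤ) ^ e * D := mul_le_mul (h D hD i hi) h2 (abs_nonneg _) (by positivity)
        _ = _ := by ring
  obtain ⟨C, e, h1⟩ := h1
  have h2 : ∃ D₀ : ℕ, ∀ D : ℕ, D₀ ≤ D → C * D ^ e < 2 ^ D := by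
    have h3 := tendsto_pow_const_div_const_pow_of_one_lt e (r := (2 : ℝ)) (by norm_num)
    have h4 := h3.eventually (gt_mem_nhds (show (0 : ℝ) < 1 / (C + 1) by positivity))
    obtain ⟨D₀, h5⟩ := Filter.eventually_atTop.1 h4
    refine ⟨D₀, fun D hD => ?_⟩
    have h6 := h5 D hD
    rw [div_lt_div_iff₀ (by positivity) (by positivity)] at h6
    have h7 : ((D ^ e * (C + 1) : ℕ) : ℝ) < ((2 ^ D : ℕ) : ℝ) := by push_cast; linarith
    have h8 : D ^ e * (C + 1) < 2 ^ D := by exact_mod_cast h7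
    nlinarith [Nat.zero_le (D ^ e)]
  obtain ⟨D₀, h2⟩ := h2
  refine ⟨D₀ + 1, fun D hD i hi => lt_of_le_of_lt (h1 D (by omega) i hi) ?_⟩
  exact_mod_cast h2 D (by omega)

end Pool.Agent.KS6_35.OR
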