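import Pool.Agent.KS6_35.OR.Gen
import Pool.Agent.KS6_35.OR.Pos

/-! The digits of a rational number know the values of a polynomial. -/

set_option autoImplicit false

namespace Pool.Agent.KS6_35.OR

open MvPolynomial

theorem digit_bound (Z : ℤ) (hZ : 2 ≤ Z) (c : ℕ → ℤ) (J : ℕ) (h : ∀ j < J, c j ≤ Z - 1) :
    ∑ j ∈ Finset.range J, c j * Z ^ j < Z ^ J := by
  induction J with
  | zero => simp
  | succ J ih =>
    rw [Finset.sum_range_succ]
    have h1 := ih fun j hj => h j (by omega)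
    have h2 : c J * Z ^ J ≤ (Z - 1) * Z ^ J :=
      mul_le_mul_of_nonneg_right (h J (by omega)) (by positivity)
    have h3 : Z ^ (J + 1) = (Z - 1) * Z ^ J + Z ^ J := by ring
    linarith

theorem core {m : ℕ} (R : MvPolynomial (Fin (m + 1)) ℤ)
    (hR : ∀ i : Fin (m + 1) → ℕ, 1 ≤ eval (fun l => ((i l : ℕ) : ℤ)) R) :
    ∃ (D₀ d : ℕ) (N : MvPolynomial (Fin (m + 1)) ℤ), ∀ D : ℕ, D₀ ≤ D → ∀ J : ℕ,
      J < D ^ (m + 1) * D →
      ((∃ v : ℕ, v < 2 ^ (D * J) ∧ (2 : ℤ) ^ (D * (J + 1)) ∣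
        eval (fun l => 2 ^ (D * wt m D l)) N -
          (∏ l, (1 - 2 ^ (D * wt m D l)) ^ (d + 1)) * ((v : ℤ) + 2 ^ (D * J))) ↔
        ∃ i : Fin (m + 1) → ℕ, pos m D i = J ∧ eval (fun l => ((i l : ℕ) : ℤ)) R = 1) := by
  classical
  obtain ⟨d, N, hN⟩ := gen R
  obtain ⟨D₀, hD₀⟩ := poly_bound R
  refine ⟨max D₀ 1, d, N, fun D hD J hJ => ?_⟩
  have hD1 : 1 ≤ D := le_trans (le_max_right _ _) hD
  have hD2 : D₀ ≤ D := le_trans (le_max_left _ _) hD
  set Z : ℤ := 2 ^ D with hZ
  have hZ2 : 2 ≤ Z := by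
    calc (2 : ℤ) = 2 ^ 1 := by norm_num
      _ ≤ 2 ^ D := pow_le_pow_right₀ (by norm_num) hD1
  let e : (Fin (m + 1) → ℕ) → ℤ := fun i => eval (fun l => ((i l : ℕ) : ℤ)) R
  have he : ∀ i : Fin (m + 1) → ℕ, 1 ≤ e i := hR
  let z : Fin (m + 1) → ℤ := fun l => 2 ^ (D * wt m D l)
  have hz : ∀ l, z l = Z ^ wt m D l := fun l => by rw [hZ, ← pow_mul]
  let box := Fintype.piFinset (fun _ : Fin (m + 1) => Finset.range (J + 1))
  have hbox : ∀ i, i ∈ box ↔ ∀ l, i l < J + 1 := fun i => by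
    simp [box, Fintype.mem_piFinset]
  let V : ℤ := ∑ i ∈ box, e i * ∏ l, z l ^ i l
  have hpow : ∀ i : Fin (m + 1) → ℕ, ∏ l, z l ^ i l = Z ^ pos m D i := by
    intro i
    unfold pos
    rw [← Finset.prod_pow_eq_pow_sum]
    refine Finset.prod_congr rfl fun l _ => ?_
    rw [hz, ← pow_mul, mul_comm]
  have hM : (2 : ℤ) ^ (D * (J + 1)) = Z ^ (J + 1) := by rw [hZ, ← pow_mul]
  have hMJ : (2 : ℤ) ^ (D * J) = Z ^ J := by rw [hZ, ← pow_mul]
  have hN1 : Z ^ (J + 1) ∣ eval z N - (∏ l, (1 - z l) ^ (d + 1)) * V := by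
    refine hN (J + 1) z (Z ^ (J + 1)) fun l => ?_
    have h : z l ^ (J + 1) = Z ^ (wt m D l * (J + 1)) := by
      rw [hz l]; exact (pow_mul Z _ _).symm
    rw [h]
    exact pow_dvd_pow Z (Nat.le_mul_of_pos_left (J + 1) (wt_pos (m := m) (D := D) hD1 l))
  -- the digits
  let c : ℕ → ℤ := fun j => ∑ i ∈ box.filter (fun i => pos m D i = j), e i
  have hc_of : ∀ j, j < D ^ (m + 1) * D → ∀ i ∈ box, pos m D i = j → c j = e i := by
    intro j hj i hi hij
    have : box.filter (fun i => pos m D i = j) = {i} := by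
      ext i'
      rw [Finset.mem_filter, Finset.mem_singleton]
      constructor
      · rintro ⟨_, h⟩
        exact pos_unique hj h hij
      · rintro rfl
        exact ⟨hi, hij⟩
    simp only [c, this, Finset.sum_singleton]
  have hc_none : ∀ j, (∀ i ∈ box, pos m D i ≠ j) → c j = 0 := by
    intro j h
    have : box.filter (fun i => pos m D i = j) = ∅ := by
      rw [Finset.filter_eq_empty_iff]
      exact fun i hi => h i hi
    simp only [c, this, Finset.sum_empty]
  have hc_nonneg : ∀ j, 0 ≤ c j := fun j => Finset.sum_nonneg fun i _ => by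
    have := he i; omega
  have hc_lt : ∀ j, j < D ^ (m + 1) * D → c j ≤ Z - 1 := by
    intro j hj
    by_cases h : ∃ i ∈ box, pos m D i = j
    · obtain ⟨i, hi, hij⟩ := h
      rw [hc_of j hj i hi hij]
      have h1 := hD₀ D hD2 i (coord_lt hj hij)
      have h2 : e i < Z := lt_of_le_of_lt (le_abs_self _) h1
      omega
    · push Not at h
      rw [hc_none j h]
      omega
  let A : ℤ := ∑ j ∈ Finset.range J, c j * Z ^ j
  have hA0 : 0 ≤ A := Finset.sum_nonneg fun j _ => mul_nonneg (hc_nonneg j) (by positivity)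
  have hA1 : A < Z ^ J := digit_bound Z hZ2 c J fun j hj => hc_lt j (by omega)
  have hV : Z ^ (J + 1) ∣ V - (A + c J * Z ^ J) := by
    have h1 : A + c J * Z ^ J = ∑ j ∈ Finset.range (J + 1), c j * Z ^ j := by
      rw [Finset.sum_range_succ]
    have h2 : ∑ j ∈ Finset.range (J + 1), c j * Z ^ j =
        ∑ i ∈ box.filter (fun i => pos m D i ∈ Finset.range (J + 1)), e i * Z ^ pos m D i := by
      rw [← Finset.sum_fiberwise_of_maps_to (s := box.filter
        (fun i => pos m D i ∈ Finset.range (J + 1))) (t := Finset.range (J + 1)) (g := pos m D)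
        (fun i hi => (Finset.mem_filter.1 hi).2)]
      refine Finset.sum_congr rfl fun j hj => ?_
      simp only [c]
      rw [Finset.sum_mul]
      refine Finset.sum_congr ?_ fun i hi => ?_
      · ext i
        simp only [Finset.mem_filter]
        constructor
        · rintro ⟨h1, h2⟩
          exact ⟨⟨h1, h2 ▸ hj⟩, h2⟩
        · rintro ⟨⟨h1, _⟩, h2⟩
          exact ⟨h1, h2⟩
      · rw [(Finset.mem_filter.1 hi).2]
    have h3 : V = ∑ i ∈ box, e i * Z ^ pos m D i :=
      Finset.sum_congr rfl fun i _ => by rw [hpow]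
    have h4 := Finset.sum_filter_add_sum_filter_not box
      (fun i => pos m D i ∈ Finset.range (J + 1)) (fun i => e i * Z ^ pos m D i)
    rw [h1, h2, h3, ← h4, add_sub_cancel_left]
    refine Finset.dvd_sum fun i hi => ?_
    have h5 := (Finset.mem_filter.1 hi).2
    rw [Finset.mem_range, not_lt] at h5
    exact (pow_dvd_pow _ h5).mul_left _
  have hcop : IsCoprime (Z ^ (J + 1)) (∏ l, (1 - z l) ^ (d + 1)) := by
    refine IsCoprime.prod_right fun l _ => ?_
    refine IsCoprime.pow ?_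
    rw [hz]
    obtain ⟨w, hw⟩ : ∃ w, wt m D l = w + 1 := ⟨wt m D l - 1, by
      have := wt_pos (m := m) hD1 l; omega⟩
    rw [hw, pow_succ']
    exact ⟨Z ^ w, 1, by ring⟩
  rw [hM, hMJ]
  change (∃ v : ℕ, v < 2 ^ (D * J) ∧ Z ^ (J + 1) ∣ eval z N -
    (∏ l, (1 - z l) ^ (d + 1)) * ((v : ℤ) + Z ^ J)) ↔ _
  have hstep : ∀ v : ℤ, Z ^ (J + 1) ∣ eval z N - (∏ l, (1 - z l) ^ (d + 1)) * (v + Z ^ J) ↔
      Z ^ (J + 1) ∣ (A + c J * Z ^ J) - (v + Z ^ J) := by
    intro v
    constructor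
    · intro h
      have h1 : Z ^ (J + 1) ∣ (∏ l, (1 - z l) ^ (d + 1)) * (V - (v + Z ^ J)) := by
        have := dvd_sub h hN1
        have h2 : (∏ l, (1 - z l) ^ (d + 1)) * (V - (v + Z ^ J)) =
          eval z N - (∏ l, (1 - z l) ^ (d + 1)) * (v + Z ^ J) -
            (eval z N - (∏ l, (1 - z l) ^ (d + 1)) * V) := by ring
        rwa [h2]
      have h2 := hcop.dvd_of_dvd_mul_left h1
      have h3 := dvd_sub h2 hV
      have h4 : A + c J * Z ^ J - (v + Z ^ J) = V - (v + Z ^ J) - (V - (A + c J * Z ^ J)) := by ring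
      rwa [h4]
    · intro h
      have h1 := dvd_add h hV
      have h2 : A + c J * Z ^ J - (v + Z ^ J) + (V - (A + c J * Z ^ J)) = V - (v + Z ^ J) := by ring
      rw [h2] at h1
      have h3 := dvd_add hN1 (h1.mul_left (∏ l, (1 - z l) ^ (d + 1)))
      have h4 : eval z N - (∏ l, (1 - z l) ^ (d + 1)) * V +
        (∏ l, (1 - z l) ^ (d + 1)) * (V - (v + Z ^ J)) =
          eval z N - (∏ l, (1 - z l) ^ (d + 1)) * (v + Z ^ J) := by ring
      rwa [h4] at h3
  have hZJ : 0 < Z ^ J := by positivity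
  constructor
  · rintro ⟨v, hv, hdvd⟩
    rw [hstep] at hdvd
    have hv' : (v : ℤ) < Z ^ J := by
      rw [← hMJ]; exact_mod_cast hv
    have hcJ := hc_lt J hJ
    have hcJ0 := hc_nonneg J
    have h1 : A + c J * Z ^ J - ((v : ℤ) + Z ^ J) = 0 := by
      refine Int.eq_zero_of_abs_lt_dvd hdvd ?_
      have e1 : A + c J * Z ^ J < Z ^ (J + 1) := by
        have : c J * Z ^ J ≤ (Z - 1) * Z ^ J := mul_le_mul_of_nonneg_right hcJ hZJ.le
        have h3 : Z ^ (J + 1) = (Z - 1) * Z ^ J + Z ^ J := by ring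
        linarith
      have e2 : (v : ℤ) + Z ^ J < Z ^ (J + 1) := by
        have h3 : Z ^ (J + 1) = Z * Z ^ J := by ring
        nlinarith
      have e3 : 0 ≤ A + c J * Z ^ J := by positivity
      have e4 : 0 < (v : ℤ) + Z ^ J := by positivity
      rw [abs_lt]
      constructor <;> linarith
    have h2 : (1 - c J) * Z ^ J = A - v := by linarith
    have h3 : c J = 1 := by
      have e5 : |A - (v : ℤ)| < Z ^ J := by
        rw [abs_lt]; constructor <;> [linarith [Int.natCast_nonneg v]; linarith [Int.natCast_nonneg v]]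
      rw [← h2, abs_mul, abs_of_pos hZJ] at e5
      have e6 : |1 - c J| < 1 := by
        by_contra hc
        push Not at hc
        nlinarith
      have := Int.abs_lt_one_iff.1 e6
      linarith
    by_cases h : ∃ i ∈ box, pos m D i = J
    · obtain ⟨i, hi, hij⟩ := h
      refine ⟨i, hij, ?_⟩
      rw [hc_of J hJ i hi hij] at h3
      exact h3
    · push Not at h
      rw [hc_none J h] at h3
      exact absurd h3 (by norm_num)
  · rintro ⟨i, hij, hi1⟩
    have hib : i ∈ box := by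
      rw [hbox]
      intro l
      have := coord_le_pos (m := m) hD1 i l
      omega
    have h1 : c J = 1 := (hc_of J hJ i hib hij).trans hi1
    refine ⟨A.toNat, ?_, ?_⟩
    · have : (A.toNat : ℤ) < (2 ^ (D * J) : ℕ) := by
        rw [Int.toNat_of_nonneg hA0]
        push_cast
        rw [hMJ]
        exact hA1
      exact_mod_cast this
    · rw [hstep, Int.toNat_of_nonneg hA0, h1]
      have : A + 1 * Z ^ J - (A + Z ^ J) = 0 := by ring
      rw [this]
      exact dvd_zero _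

end Pool.Agent.KS6_35.OR
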