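import Mathlib

/-!
# The group `G = ⟨a, t, s | (t a t⁻¹) a (t a t⁻¹)⁻¹ = a²⟩` and words with parameters

The group is the free product of the Baumslag–Gersten group and the infinite cyclic group; it is a
one-relator group.
-/

set_option autoImplicit false

namespace Pool.Agent.KS6_35.OR.Eqs

/-- The relator `(t a t⁻¹) a (t a t⁻¹)⁻¹ a⁻²` in the generators `a = 0`, `t = 1`, `s = 2`. -/
def relator : FreeGroup (Fin 3) :=
  FreeGroup.of 1 * FreeGroup.of 0 * (FreeGroup.of 1)⁻¹ * FreeGroup.of 0 *
    (FreeGroup.of 1 * FreeGroup.of 0 * (FreeGroup.of 1)⁻¹)⁻¹ * (FreeGroup.of 0)⁻¹ *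
    (FreeGroup.of 0)⁻¹

/-- The one-relator group `⟨a, t, s | relator⟩`. -/
abbrev G : Type := PresentedGroup ({relator} : Set (FreeGroup (Fin 3)))

/-- The generator `a` of the group. -/
def a : G := PresentedGroup.of 0

/-- Words in the three generators and `r` more letters and their inverses (marked by `false`). -/
abbrev Word (r : ℕ) : Type := List ((Fin 3 ⊕ Fin r) × Bool)

/-- The value of a word when the additional letters have the values `g`. -/
def value {r : ℕ} (g : Fin r → G) (w : Word r) : G :=
  FreeGroup.lift (Sum.elim PresentedGroup.of g) (FreeGroup.mk w)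

end Pool.Agent.KS6_35.OR.Eqs
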