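import Mathlib

/-! Truncated generating functions of polynomials. -/

set_option autoImplicit false

namespace Pool.Agent.KS6_35.OR

open Polynomial in
/-- `f` has a rational generating function with denominator `(1 - X) ^ (d + 1)`. -/
def Rat1 (d : ℕ) (f : ℕ → ℤ) : Prop :=
  ∃ N : Polynomial ℤ, ∀ T : ℕ, ∃ R : Polynomial ℤ,
    (1 - X) ^ (d + 1) * ∑ i ∈ Finset.range T, C (f i) * X ^ i = N + X ^ T * R

open Polynomial in
theorem rat1_one : Rat1 0 (fun _ => 1) := by
  refine ⟨1, fun T => ⟨-1, ?_⟩⟩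
  simp only [map_one, one_mul, zero_add, pow_one]
  have := mul_neg_geom_sum (X : Polynomial ℤ) T
  rw [this]; ring

open Polynomial in
theorem rat1_mul (d : ℕ) (f : ℕ → ℤ) (h : Rat1 d f) : Rat1 (d + 1) (fun i => i * f i) := by
  obtain ⟨N, hN⟩ := h
  refine ⟨X * (1 - X) * derivative N + C ((d : ℤ) + 1) * X * N, fun T => ?_⟩
  obtain ⟨R, hR⟩ := hN T
  refine ⟨(1 - X) * C (T : ℤ) * R + X * (1 - X) * derivative R + C ((d : ℤ) + 1) * X * R, ?_⟩
  set F : Polynomial ℤ := ∑ i ∈ Finset.range T, C (f i) * X ^ i with hF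
  have hG : ∑ i ∈ Finset.range T, C ((i : ℤ) * f i) * X ^ i = X * derivative F := by
    rw [hF, map_sum, Finset.mul_sum]
    refine Finset.sum_congr rfl fun i _ => ?_
    rcases i with _ | i
    · simp
    · simp only [derivative_C_mul_X_pow]
      rw [Nat.add_sub_cancel, map_mul, map_mul]
      simp only [Nat.cast_succ, map_add, map_natCast, map_one]
      ring
  have hD : (1 - X) ^ (d + 1) * derivative F - C ((d : ℤ) + 1) * (1 - X) ^ d * F =
      derivative N + C (T : ℤ) * X ^ (T - 1) * R + X ^ T * derivative R := by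
    have h1 := congrArg derivative hR
    rw [derivative_mul, derivative_add, derivative_mul, derivative_X_pow, derivative_pow] at h1
    simp only [derivative_sub, derivative_one, derivative_X, zero_sub, Nat.add_sub_cancel,
      Nat.cast_add, Nat.cast_one, map_add, map_natCast, map_one] at h1 ⊢
    linear_combination h1
  have hX : C (T : ℤ) * X ^ (T - 1) * X = C (T : ℤ) * X ^ T := by
    rcases T with _ | T
    · simp
    · rw [Nat.add_sub_cancel]; ring
  rw [hG]
  have h2 : (1 - X) ^ (d + 1 + 1) * (X * derivative F) = X * (1 - X) *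
      ((1 - X) ^ (d + 1) * derivative F - C ((d : ℤ) + 1) * (1 - X) ^ d * F) +
      C ((d : ℤ) + 1) * X * ((1 - X) ^ (d + 1) * F) := by ring
  rw [h2, hD, hR]
  linear_combination (1 - X) * R * hX

open Polynomial in
theorem rat1_succ (d : ℕ) (f : ℕ → ℤ) (h : Rat1 d f) : Rat1 (d + 1) f := by
  obtain ⟨N, hN⟩ := h
  refine ⟨(1 - X) * N, fun T => ?_⟩
  obtain ⟨R, hR⟩ := hN T
  refine ⟨(1 - X) * R, ?_⟩
  rw [pow_succ (1 - X : Polynomial ℤ) (d + 1), mul_right_comm, hR]
  ring

theorem rat1_pow (e d : ℕ) (h : e ≤ d) : Rat1 d (fun i => (i : ℤ) ^ e) := by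
  induction d, h using Nat.le_induction with
  | base =>
    induction e with
    | zero => simpa using rat1_one
    | succ e ih =>
      have := rat1_mul e _ ih
      convert this using 2 with i
      ring
  | succ d _ ih => exact rat1_succ d _ ih

open MvPolynomial in
/-- The generating function of a polynomial in several variables, modulo `M`. -/
theorem gen {n : ℕ} (R : MvPolynomial (Fin n) ℤ) : ∃ (d : ℕ) (N : MvPolynomial (Fin n) ℤ),
    ∀ (T : ℕ) (z : Fin n → ℤ) (M : ℤ), (∀ l, M ∣ z l ^ T) →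
      M ∣ eval z N - (∏ l, (1 - z l) ^ (d + 1)) *
        ∑ i ∈ Fintype.piFinset (fun _ : Fin n => Finset.range T),
          eval (fun l => ((i l : ℕ) : ℤ)) R * ∏ l, z l ^ i l := by
  classical
  let d := R.totalDegree
  have hle : ∀ s ∈ R.support, ∀ l, s l ≤ d := fun s hs l =>
    (Finsupp.le_degree l s).trans (le_totalDegree hs) 
  have hex : ∀ e : ℕ, ∃ N : Polynomial ℤ, e ≤ d → ∀ T : ℕ, ∃ R : Polynomial ℤ,
    (1 - Polynomial.X) ^ (d + 1) * ∑ i ∈ Finset.range T,
      Polynomial.C ((i : ℤ) ^ e) * Polynomial.X ^ i = N + Polynomial.X ^ T * R := by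
    intro e
    by_cases he : e ≤ d
    · obtain ⟨N, hN⟩ := rat1_pow e d he
      exact ⟨N, fun _ => hN⟩
    · exact ⟨0, fun h => absurd h he⟩
  choose P hP using hex
  refine ⟨d, ∑ s ∈ R.support, C (coeff s R) * ∏ l, Polynomial.aeval (X l) (P (s l)),
    fun T z M hM => ?_⟩
  have hmod : ∀ s ∈ R.support, (∏ l, (P (s l)).eval (z l)) ≡
      (∏ l, (1 - z l) ^ (d + 1)) *
        ∑ i ∈ Fintype.piFinset (fun _ : Fin n => Finset.range T),
          (∏ l, (i l : ℤ) ^ s l) * ∏ l, z l ^ i l [ZMOD M] := by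
    intro s hs
    have h1 : (∏ l, (1 - z l) ^ (d + 1)) *
        ∑ i ∈ Fintype.piFinset (fun _ : Fin n => Finset.range T),
          (∏ l, (i l : ℤ) ^ s l) * ∏ l, z l ^ i l =
        ∏ l, ((1 - z l) ^ (d + 1) * ∑ i ∈ Finset.range T, (i : ℤ) ^ s l * z l ^ i) := by
      rw [Finset.prod_mul_distrib, Finset.prod_univ_sum]
      congr 1
      refine Finset.sum_congr rfl fun i _ => ?_
      rw [Finset.prod_mul_distrib]
    rw [h1]
    refine Int.ModEq.prod fun l _ => ?_
    obtain ⟨R', hR'⟩ := hP (s l) (hle s hs l) T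
    have h2 := congrArg (Polynomial.eval (z l)) hR'
    simp only [Polynomial.eval_mul, Polynomial.eval_pow, Polynomial.eval_sub, Polynomial.eval_one,
      Polynomial.eval_X, Polynomial.eval_finsetSum, Polynomial.eval_C, Polynomial.eval_add] at h2
    rw [h2]
    refine Int.ModEq.symm ?_
    rw [Int.modEq_iff_dvd]
    have : Polynomial.eval (z l) (P (s l)) - (Polynomial.eval (z l) (P (s l)) +
      z l ^ T * Polynomial.eval (z l) R') = z l ^ T * (-Polynomial.eval (z l) R') := by ring
    rw [this]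
    exact (hM l).mul_right _
  have h3 : eval z (∑ s ∈ R.support, C (coeff s R) * ∏ l, Polynomial.aeval (X l) (P (s l))) =
      ∑ s ∈ R.support, coeff s R * ∏ l, (P (s l)).eval (z l) := by
    rw [map_sum]
    refine Finset.sum_congr rfl fun s _ => ?_
    rw [map_mul, eval_C, map_prod]
    congr 1
    refine Finset.prod_congr rfl fun l _ => ?_
    have : eval z (Polynomial.aeval (X l) (P (s l))) = Polynomial.aeval (z l) (P (s l)) := by
      have h6 := Polynomial.aeval_algHom_apply (MvPolynomial.aeval z : MvPolynomial (Fin n) ℤ →ₐ[ℤ] ℤ)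
        (X l) (P (s l))
      rw [aeval_X] at h6
      rw [h6, ← MvPolynomial.coe_aeval_eq_eval]
      rfl
    rw [this, Polynomial.coe_aeval_eq_eval]
  have h4 : ∀ i : Fin n → ℕ, eval (fun l => ((i l : ℕ) : ℤ)) R =
      ∑ s ∈ R.support, coeff s R * ∏ l, (i l : ℤ) ^ s l := by
    intro i
    rw [eval_eq']
  rw [← Int.modEq_iff_dvd, h3]
  simp_rw [h4, Finset.sum_mul]
  rw [Finset.sum_comm, Finset.mul_sum]
  refine Int.ModEq.sum fun s hs => ?_
  have h5 := (hmod s hs).mul_left (coeff s R)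
  refine Int.ModEq.symm (h5.trans ?_)
  rw [Finset.mul_sum, Finset.mul_sum, Finset.mul_sum]
  have h6 : ∀ a b : ℤ, a = b → a ≡ b [ZMOD M] := fun a b h => h ▸ Int.ModEq.refl _
  refine h6 _ _ ?_
  refine Finset.sum_congr rfl fun i _ => ?_
  ring

end Pool.Agent.KS6_35.OR
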