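import Mathlib

/-! The Baumslag–Gersten group acts through the HNN extension of `ℚ ⋊ ℤ`. -/

set_option autoImplicit false

namespace Pool.Agent.KS6_35.OR

/-- the affine maps `x ↦ 2 ^ k x + q` of the rational line -/
@[ext] structure Aq where
  q : ℚ
  k : ℤ

namespace Aq

instance : Mul Aq := ⟨fun x y => ⟨x.q + 2 ^ x.k * y.q, x.k + y.k⟩⟩
instance : One Aq := ⟨⟨0, 0⟩⟩
instance : Inv Aq := ⟨fun x => ⟨-(2 ^ (-x.k) * x.q), -x.k⟩⟩

theorem mul_def (x y : Aq) : x * y = ⟨x.q + 2 ^ x.k * y.q, x.k + y.k⟩ := rfl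
theorem one_def : (1 : Aq) = ⟨0, 0⟩ := rfl
theorem inv_def (x : Aq) : x⁻¹ = ⟨-(2 ^ (-x.k) * x.q), -x.k⟩ := rfl

instance : Group Aq := Group.ofLeftAxioms
  (by
    intro x y z
    simp only [mul_def, mk.injEq]
    refine ⟨?_, by ring⟩
    rw [zpow_add₀ (by norm_num)]; ring)
  (by
    intro x
    simp [mul_def, one_def])
  (by
    intro x
    simp [mul_def, one_def, inv_def])

/-- translations by integers -/
def fa : Multiplicative ℤ →* Aq where
  toFun n := ⟨(Multiplicative.toAdd n : ℤ), 0⟩
  map_one' := by simp [one_def]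
  map_mul' x y := by simp [mul_def]

/-- powers of the homothety -/
def fb : Multiplicative ℤ →* Aq where
  toFun n := ⟨0, Multiplicative.toAdd n⟩
  map_one' := by simp [one_def]
  map_mul' x y := by simp [mul_def]

theorem fa_inj : Function.Injective fa := by
  intro x y h
  have := congrArg Aq.q h
  simp only [fa, MonoidHom.coe_mk, OneHom.coe_mk, Int.cast_inj] at this
  exact this

theorem fb_inj : Function.Injective fb := by
  intro x y h
  exact congrArg Aq.k h

/-- the associated isomorphism `a ↦ b` -/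
noncomputable def iso : fa.range ≃* fb.range :=
  (MonoidHom.ofInjective fa_inj).symm.trans (MonoidHom.ofInjective fb_inj)

theorem mem_A {x : Aq} : x ∈ fa.range ↔ x.k = 0 ∧ ∃ n : ℤ, x.q = n := by
  constructor
  · rintro ⟨n, rfl⟩
    exact ⟨rfl, Multiplicative.toAdd n, rfl⟩
  · rintro ⟨h, n, hn⟩
    exact ⟨Multiplicative.ofAdd n, Aq.ext hn.symm h.symm⟩

theorem mem_B {x : Aq} : x ∈ fb.range ↔ x.q = 0 := by
  constructor
  · rintro ⟨n, rfl⟩
    rfl
  · intro h
    exact ⟨Multiplicative.ofAdd x.k, Aq.ext h.symm rfl⟩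

theorem iso_apply (n : Multiplicative ℤ) : iso ⟨fa n, n, rfl⟩ = ⟨fb n, n, rfl⟩ := by
  unfold iso
  rw [MulEquiv.trans_apply]
  have : (⟨fa n, n, rfl⟩ : fa.range) = MonoidHom.ofInjective fa_inj n := rfl
  rw [this, MulEquiv.symm_apply_apply]
  rfl

end Aq

open Aq HNNExtension

/-- the HNN extension -/
abbrev Gh : Type := HNNExtension Aq fa.range fb.range iso

/-- the element of `Gh` given by an affine map -/
noncomputable def em (q : ℚ) (k : ℤ) : Gh := of (⟨q, k⟩ : Aq)

theorem em_mul (q : ℚ) (k : ℤ) (q' : ℚ) (k' : ℤ) : em q k * em q' k' = em (q + 2 ^ k * q') (k + k') := by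
  unfold em; rw [← map_mul]; rfl

theorem em_inv (q : ℚ) (k : ℤ) : (em q k)⁻¹ = em (-(2 ^ (-k) * q)) (-k) := by
  unfold em; rw [← map_inv]; rfl

theorem em_inj {q q' : ℚ} {k k' : ℤ} (h : em q k = em q' k') : q = q' ∧ k = k' := by
  have := of_injective (φ := iso) h
  exact ⟨congrArg Aq.q this, congrArg Aq.k this⟩

/-- the stable letter -/
noncomputable def st : Gh := HNNExtension.t

theorem st_mul (n : ℤ) : st * em n 0 = em 0 n * st := by
  have := t_mul_of (φ := iso) ⟨fa (Multiplicative.ofAdd n), _, rfl⟩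
  rw [iso_apply] at this
  exact this

theorem st_conj (n : ℤ) : st * em n 0 * st⁻¹ = em 0 n := by
  rw [st_mul]; group

theorem inv_st_mul (n : ℤ) : st⁻¹ * em 0 n = em n 0 * st⁻¹ := by
  rw [← st_conj]; group

/-- multiply the last syllable of a list by `c` -/
def mulLast : List (ℤˣ × Aq) → Aq → List (ℤˣ × Aq)
  | [], _ => []
  | [x], c => [(x.1, x.2 * c)]
  | x :: y :: l, c => x :: mulLast (y :: l) c

theorem mulLast_fst (l : List (ℤˣ × Aq)) (c : Aq) : (mulLast l c).map Prod.fst = l.map Prod.fst := by
  induction l with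
  | nil => rfl
  | cons x l ih =>
    cases l with
    | nil => rfl
    | cons y l => simp only [mulLast, List.map_cons, List.cons.injEq, true_and]; simpa using ih

theorem mulLast_prod (l : List (ℤˣ × Aq)) (c : Aq) (hl : l ≠ []) :
    ((mulLast l c).map (fun x => (HNNExtension.t : Gh) ^ (x.1 : ℤ) * of x.2)).prod =
      (l.map (fun x => (HNNExtension.t : Gh) ^ (x.1 : ℤ) * of x.2)).prod * of c := by
  induction l with
  | nil => exact absurd rfl hl
  | cons x l ih =>
    cases l with
    | nil => simp [mulLast, mul_assoc]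
    | cons y l =>
      simp only [mulLast, List.map_cons, List.prod_cons]
      have := ih (by simp)
      simp only [List.map_cons, List.prod_cons] at this
      rw [this]; group

theorem mulLast_chain (l : List (ℤˣ × Aq)) (c : Aq)
    (h : l.IsChain (fun a b => a.2 ∈ toSubgroup fa.range fb.range a.1 → a.1 = b.1)) :
    (mulLast l c).IsChain (fun a b => a.2 ∈ toSubgroup fa.range fb.range a.1 → a.1 = b.1) := by
  induction l with
  | nil => exact h
  | cons x l ih =>
    cases l with
    | nil => exact List.isChain_singleton _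
    | cons y l =>
      simp only [mulLast]
      rw [List.isChain_cons_cons] at h
      have h1 := ih h.2
      cases l with
      | nil =>
        simp only [mulLast] at h1 ⊢
        rw [List.isChain_cons_cons]
        exact ⟨h.1, h1⟩
      | cons w l =>
        simp only [mulLast] at h1 ⊢
        rw [List.isChain_cons_cons]
        exact ⟨h.1, h1⟩

theorem peel {h0 c c' : Aq} {l : List (ℤˣ × Aq)} {u : ℤˣ} {h1 : Aq}
    (hch : ((u, h1) :: l).IsChain (fun a b => a.2 ∈ toSubgroup fa.range fb.range a.1 → a.1 = b.1))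
    (h : (of c : Gh) * (of h0 * (((u, h1) :: l).map
        (fun x => (HNNExtension.t : Gh) ^ (x.1 : ℤ) * of x.2)).prod) =
      (of h0 * (((u, h1) :: l).map (fun x => (HNNExtension.t : Gh) ^ (x.1 : ℤ) * of x.2)).prod) *
        of c') :
    h0⁻¹ * (c * h0) ∈ toSubgroup fa.range fb.range (-u) := by
  let w1 : NormalWord.ReducedWord Aq fa.range fb.range :=
    ⟨h0, mulLast ((u, h1) :: l) c', mulLast_chain _ _ hch⟩
  let w2 : NormalWord.ReducedWord Aq fa.range fb.range := ⟨c * h0, (u, h1) :: l, hch⟩
  have hp : w1.prod iso = w2.prod iso := by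
    simp only [NormalWord.ReducedWord.prod, w1, w2]
    rw [mulLast_prod _ _ (by simp), map_mul, ← mul_assoc, ← h]
    group
  have := (ReducedWord.map_fst_eq_and_of_prod_eq iso hp).2 u (by
    have h3 := mulLast_fst ((u, h1) :: l) c'
    rw [← List.head?_map]
    simp only [w1]
    rw [h3]
    simp)
  exact this

/-- every element is the product of a reduced word -/
theorem exists_word (g : Gh) : ∃ w : NormalWord.ReducedWord Aq fa.range fb.range, w.prod iso = g := by
  rcases NormalWord.TransversalPair.nonempty Aq fa.range fb.range with ⟨d⟩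
  exact ⟨((NormalWord.equiv iso d) g).toReducedWord, (NormalWord.equiv iso d).left_inv g⟩

theorem two_zpow_ne (k : ℤ) : (2 : ℚ) ^ k ≠ 0 := zpow_ne_zero _ (by norm_num)

theorem two_zpow_eq_one {k : ℤ} (h : (2 : ℚ) ^ k = 1) : k = 0 := by
  have : (2 : ℚ) ^ k = 2 ^ (0 : ℤ) := by rw [h, zpow_zero]
  exact zpow_right_injective₀ (by norm_num) (by norm_num) this

/-- the centralizer of `a` -/
theorem centralizer (g : Gh) (h : em 1 0 * g = g * em 1 0) : ∃ s : ℚ, g = em s 0 := by
  obtain ⟨w, rfl⟩ := exists_word g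
  obtain ⟨h0, l, hch⟩ := w
  simp only [NormalWord.ReducedWord.prod] at h ⊢
  cases l with
  | nil =>
    simp only [List.map_nil, List.prod_nil, mul_one] at h ⊢
    unfold em at h
    rw [← map_mul, ← map_mul] at h
    have h1 := of_injective (φ := iso) h
    have h2 := congrArg Aq.q h1
    simp only [Aq.mul_def] at h2
    have h3 : (2 : ℚ) ^ h0.k = 1 := by
      simp at h2; linarith
    refine ⟨h0.q, ?_⟩
    unfold em
    congr 1
    exact Aq.ext rfl (two_zpow_eq_one h3)
  | cons x l =>
    exfalso
    obtain ⟨u1, h1⟩ := x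
    have hp := peel hch h
    rcases Int.units_eq_one_or u1 with rfl | rfl
    · rw [toSubgroup_neg_one, Aq.mem_B] at hp
      simp only [Aq.mul_def, Aq.inv_def] at hp
      have := two_zpow_ne (-h0.k)
      simp at hp
      have h3 : -(2 ^ (-h0.k) * h0.q) + 2 ^ (-h0.k) * (1 + h0.q) = (2 : ℚ) ^ (-h0.k) := by ring
      simp only [zpow_neg] at h3 this
      rw [h3] at hp
      exact this hp
    · rw [neg_neg, toSubgroup_one, Aq.mem_A] at hp
      obtain ⟨-, n, hn⟩ := hp
      have hn' : (n : ℚ) = 2 ^ (-h0.k) := by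
        rw [← hn]
        simp only [Aq.mul_def, Aq.inv_def]
        simp
        ring
      have hn0 : n ≠ 0 := by
        rintro rfl
        exact two_zpow_ne (-h0.k) (by rw [← hn']; simp)
      -- push `a` through the first letter
      have hpush : em 1 0 * (of h0 : Gh) * st⁻¹ = of h0 * st⁻¹ * em 0 n := by
        have e1 : em 1 0 * (of h0 : Gh) = of h0 * em n 0 := by
          unfold em
          rw [← map_mul, ← map_mul]
          congr 1
          ext
          · simp only [Aq.mul_def]
            rw [hn', ← zpow_add₀ (by norm_num)]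
            simp; ring
          · simp [Aq.mul_def]
        rw [e1, mul_assoc, mul_assoc, ← inv_st_mul]
      have h' : em 0 n * (of h1 * (l.map (fun x => (HNNExtension.t : Gh) ^ (x.1 : ℤ) * of x.2)).prod) =
          (of h1 * (l.map (fun x => (HNNExtension.t : Gh) ^ (x.1 : ℤ) * of x.2)).prod) * em 1 0 := by
        simp only [List.map_cons, List.prod_cons] at h
        have e2 : ((HNNExtension.t : Gh) ^ ((-1 : ℤˣ) : ℤ)) = st⁻¹ := by
          simp [st]
        rw [e2] at h
        have e3 : of h0 * st⁻¹ * (em 0 n * (of h1 * (l.map (fun x => (HNNExtension.t : Gh) ^ (x.1 : ℤ) * of x.2)).prod)) =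
            of h0 * st⁻¹ * ((of h1 * (l.map (fun x => (HNNExtension.t : Gh) ^ (x.1 : ℤ) * of x.2)).prod) * em 1 0) := by
          rw [← mul_assoc, ← hpush]
          simp only [mul_assoc] at h ⊢
          exact h
        exact mul_left_cancel e3
      cases l with
      | nil =>
        simp only [List.map_nil, List.prod_nil, mul_one] at h'
        unfold em at h'
        rw [← map_mul, ← map_mul] at h'
        have h2 := congrArg Aq.k (of_injective (φ := iso) h')
        simp only [Aq.mul_def] at h2
        omega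
      | cons y l =>
        obtain ⟨u2, h2⟩ := y
        rw [List.isChain_cons_cons] at hch
        have hp2 := peel hch.2 h'
        rcases Int.units_eq_one_or u2 with rfl | rfl
        · rw [toSubgroup_neg_one, Aq.mem_B] at hp2
          simp only [Aq.mul_def, Aq.inv_def, zero_add] at hp2
          have h5 : 2 ^ (-h1.k) * (h1.q * (2 ^ n - 1)) = (0 : ℚ) := by
            rw [← hp2]; ring
          have h6 : h1.q = 0 := by
            rcases mul_eq_zero.1 h5 with h7 | h7
            · exact absurd h7 (two_zpow_ne _)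
            · rcases mul_eq_zero.1 h7 with h8 | h8
              · exact h8
              · exact absurd (two_zpow_eq_one (sub_eq_zero.1 h8)) hn0
          have h7 := hch.1 (by
            change h1 ∈ toSubgroup fa.range fb.range (-1)
            rw [toSubgroup_neg_one, Aq.mem_B]; exact h6)
          simp at h7
        · rw [neg_neg, toSubgroup_one, Aq.mem_A] at hp2
          have := hp2.1
          simp only [Aq.mul_def, Aq.inv_def] at this
          omega

/-- the test for integers -/
theorem integral {q : ℚ} (h : ∃ g : Aq, (st * em q 0 * st⁻¹) * em 1 0 * (st * em q 0 * st⁻¹)⁻¹ = of g) :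
    ∃ z : ℤ, q = z := by
  by_contra hq
  push Not at hq
  have hmem : ∀ q' : ℚ, (∀ z : ℤ, q' ≠ z) → (⟨q', 0⟩ : Aq) ∉ fa.range := by
    rintro q' h' hc
    rw [Aq.mem_A] at hc
    obtain ⟨-, z, hz⟩ := hc
    exact h' z hz
  let w : NormalWord.ReducedWord Aq fa.range fb.range :=
    ⟨1, [(1, ⟨q, 0⟩), (-1, ⟨1, 0⟩), (1, ⟨-q, 0⟩), (-1, 1)], by
      refine List.isChain_cons_cons.2 ⟨fun h => ?_, List.isChain_cons_cons.2 ⟨fun h => ?_,
        List.isChain_cons_cons.2 ⟨fun h => ?_, List.isChain_singleton _⟩⟩⟩
      · exact absurd h (hmem q hq)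
      · change (⟨1, 0⟩ : Aq) ∈ toSubgroup fa.range fb.range (-1) at h
        rw [toSubgroup_neg_one, Aq.mem_B] at h
        exact absurd h (by norm_num)
      · refine absurd h (hmem (-q) fun z hz => hq (-z) ?_)
        push_cast
        linarith⟩
  have hw : w.prod iso = (st * em q 0 * st⁻¹) * em 1 0 * (st * em q 0 * st⁻¹)⁻¹ := by
    simp only [NormalWord.ReducedWord.prod, w, List.map_cons, List.map_nil, List.prod_cons,
      List.prod_nil, map_one, mul_one, one_mul]
    have e1 : ((HNNExtension.t : Gh) ^ ((1 : ℤˣ) : ℤ)) = st := by simp [st]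
    have e2 : ((HNNExtension.t : Gh) ^ ((-1 : ℤˣ) : ℤ)) = st⁻¹ := by simp [st]
    have e3 : (of (⟨-q, 0⟩ : Aq) : Gh) = (em q 0)⁻¹ := by
      rw [em_inv]; simp [em]
    rw [e1, e2, e3]
    simp only [em]
    group
  have := ReducedWord.toList_eq_nil_of_mem_of_range iso w (by
    obtain ⟨g, hg⟩ := h
    rw [hw, hg]
    exact ⟨g, rfl⟩)
  simp [w] at this

end Pool.Agent.KS6_35.OR
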