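import Pool.Agent.KS6_35.OR.Hnn

/-! The tests. -/

set_option autoImplicit false

namespace Pool.Agent.KS6_35.OR

section

variable {K : Type*} [Group K]

/-- `b ^ z` if `w = a ^ z` -/
def bb (t w : K) : K := t * w * t⁻¹

/-- `a ^ (z 2 ^ n)` if `w = a ^ z` and `e = a ^ n` -/
def sc (t w e : K) : K := bb t e * w * (bb t e)⁻¹

/-- trivial if and only if the exponent of `w` is an integer -/
def tI (a t w : K) : K := sc t a w * a * (sc t a w)⁻¹ * a⁻¹

/-- trivial if and only if the exponent of `w` is nonnegative -/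
def tN (a t w : K) : K := tI a t (sc t a w)

/-- trivial if and only if the exponent of `w` is divisible by `2 ^ n` -/
def tD (a t w e : K) : K := tI a t ((bb t e)⁻¹ * w * bb t e)

/-- the first number encoded by `x` -/
def rU (a t x : K) : K := bb t a * x * a⁻¹ * x⁻¹

/-- the second number encoded by `x` -/
def rS (a t x : K) : K := t⁻¹ * (rU a t x)⁻¹ * x

/-- the commutator with `a` -/
def tC (a w : K) : K := w * a * w⁻¹ * a⁻¹

theorem map_bb {K' : Type*} [Group K'] (f : K →* K') (t w : K) : f (bb t w) = bb (f t) (f w) := by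
  simp [bb]

theorem map_sc {K' : Type*} [Group K'] (f : K →* K') (t w e : K) :
    f (sc t w e) = sc (f t) (f w) (f e) := by
  simp [sc, map_bb]

theorem map_tI {K' : Type*} [Group K'] (f : K →* K') (a t w : K) :
    f (tI a t w) = tI (f a) (f t) (f w) := by
  simp [tI, map_sc]

theorem map_tN {K' : Type*} [Group K'] (f : K →* K') (a t w : K) :
    f (tN a t w) = tN (f a) (f t) (f w) := by
  simp [tN, map_tI, map_sc]

theorem map_tD {K' : Type*} [Group K'] (f : K →* K') (a t w e : K) :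
    f (tD a t w e) = tD (f a) (f t) (f w) (f e) := by
  simp [tD, map_tI, map_bb]

theorem map_rU {K' : Type*} [Group K'] (f : K →* K') (a t x : K) :
    f (rU a t x) = rU (f a) (f t) (f x) := by
  simp [rU, map_bb]

theorem map_rS {K' : Type*} [Group K'] (f : K →* K') (a t x : K) :
    f (rS a t x) = rS (f a) (f t) (f x) := by
  simp [rS, map_rU]

theorem map_tC {K' : Type*} [Group K'] (f : K →* K') (a w : K) :
    f (tC a w) = tC (f a) (f w) := by
  simp [tC]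

theorem bb_zpow (t a : K) (z : ℤ) : bb t (a ^ z) = (bb t a) ^ z := by
  unfold bb
  rw [conj_zpow]

variable {a t : K} (hrel : bb t a * a * (bb t a)⁻¹ = a ^ 2)
include hrel

theorem b_conj (n : ℕ) (z : ℤ) : (bb t a) ^ n * a ^ z * ((bb t a) ^ n)⁻¹ = a ^ (z * 2 ^ n) := by
  induction n with
  | zero => simp
  | succ n ih =>
    have h1 : (bb t a) ^ (n + 1) * a ^ z * ((bb t a) ^ (n + 1))⁻¹ =
        bb t a * ((bb t a) ^ n * a ^ z * ((bb t a) ^ n)⁻¹) * (bb t a)⁻¹ := by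
      rw [pow_succ']; group
    rw [h1, ih, ← conj_zpow, hrel, ← zpow_natCast, ← zpow_mul]
    congr 1
    push_cast
    ring

theorem sc_nat (n : ℕ) (z : ℤ) : sc t (a ^ z) (a ^ (n : ℤ)) = a ^ (z * 2 ^ n) := by
  unfold sc
  rw [bb_zpow, zpow_natCast]
  exact b_conj hrel n z

theorem tI_zpow (z : ℤ) : tI a t (a ^ z) = 1 := by
  unfold tI
  rcases z.eq_nat_or_neg with ⟨n, rfl | rfl⟩
  · have := sc_nat hrel n 1
    rw [zpow_one] at this
    rw [this]
    group
  · have h1 := b_conj hrel n 1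
    rw [zpow_one, one_mul] at h1
    have h2 : sc t a (a ^ (-(n : ℤ))) = ((bb t a) ^ n)⁻¹ * a * (bb t a) ^ n := by
      unfold sc
      rw [bb_zpow, zpow_neg, zpow_natCast, inv_inv]
    rw [h2]
    have h3 : a * ((bb t a) ^ n * a * ((bb t a) ^ n)⁻¹) * a⁻¹ *
        ((bb t a) ^ n * a * ((bb t a) ^ n)⁻¹)⁻¹ = 1 := by
      rw [h1]; group
    have h4 : ((bb t a) ^ n)⁻¹ * a * (bb t a) ^ n * a * (((bb t a) ^ n)⁻¹ * a * (bb t a) ^ n)⁻¹ * a⁻¹
        = ((bb t a) ^ n)⁻¹ * (a * ((bb t a) ^ n * a * ((bb t a) ^ n)⁻¹) * a⁻¹ *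
        ((bb t a) ^ n * a * ((bb t a) ^ n)⁻¹)⁻¹) * ((bb t a) ^ n) := by group
    rw [h4, h3]
    group

theorem tN_nat (n : ℕ) : tN a t (a ^ (n : ℤ)) = 1 := by
  unfold tN
  have := sc_nat hrel n 1
  rw [zpow_one] at this
  rw [this]
  exact tI_zpow hrel _

theorem tD_ok (n : ℕ) (q : ℤ) : tD a t (a ^ (q * 2 ^ n)) (a ^ (n : ℤ)) = 1 := by
  unfold tD
  have h1 := sc_nat hrel n q
  unfold sc at h1
  rw [← h1]
  have : (bb t (a ^ (n : ℤ)))⁻¹ * (bb t (a ^ (n : ℤ)) * a ^ q * (bb t (a ^ (n : ℤ)))⁻¹) *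
      bb t (a ^ (n : ℤ)) = a ^ q := by group
  rw [this]
  exact tI_zpow hrel _

theorem rU_eq (u s : ℤ) : rU a t (a ^ u * t * a ^ s) = a ^ u := by
  unfold rU
  have h1 := b_conj hrel 1 u
  rw [pow_one, pow_one] at h1
  have h2 : bb t a * (a ^ u * t * a ^ s) * a⁻¹ * (a ^ u * t * a ^ s)⁻¹ =
      (bb t a * a ^ u * (bb t a)⁻¹) * (a ^ u)⁻¹ := by
    unfold bb; group
  rw [h2, h1, ← zpow_neg, ← zpow_add]
  congr 1
  ring

theorem rS_eq (u s : ℤ) : rS a t (a ^ u * t * a ^ s) = a ^ s := by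
  unfold rS
  rw [rU_eq hrel]
  group

end

/-! soundness in `Gh` -/

theorem em_zpow (z : ℤ) : (em 1 0) ^ z = em z 0 := by
  have hnat : ∀ n : ℕ, (em 1 0) ^ n = em n 0 := by
    intro n
    induction n with
    | zero => simp only [pow_zero, Nat.cast_zero]; unfold em; exact (map_one _).symm
    | succ n ih => rw [pow_succ, ih, em_mul]; simp
  rcases z.eq_nat_or_neg with ⟨n, rfl | rfl⟩
  · rw [zpow_natCast, hnat]; simp
  · rw [zpow_neg, zpow_natCast, hnat, em_inv]; simp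

theorem bb_em (n : ℤ) : bb st (em n 0) = em 0 n := st_conj n

theorem rel_Gh : bb st (em 1 0) * em 1 0 * (bb st (em 1 0))⁻¹ = (em 1 0) ^ 2 := by
  have := bb_em 1
  rw [Int.cast_one] at this
  rw [this, em_mul, em_inv, em_mul, sq, em_mul]
  norm_num

theorem tC_sound {w : Gh} (h : tC (em 1 0) w = 1) : ∃ s : ℚ, w = em s 0 := by
  refine centralizer w ?_
  unfold tC at h
  have := mul_eq_one_iff_eq_inv.1 h
  rw [inv_inv] at this
  have h2 := congrArg (· * w) this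
  simp only [inv_mul_cancel_right] at h2
  exact h2.symm

theorem tI_sound {q : ℚ} (h : tI (em 1 0) st (em q 0) = 1) : ∃ z : ℤ, q = z := by
  refine integral ?_
  obtain ⟨s, hs⟩ := tC_sound (w := sc st (em 1 0) (em q 0)) h
  exact ⟨⟨s, 0⟩, hs⟩

theorem tN_sound {z : ℤ} (h : tN (em 1 0) st ((em 1 0) ^ z) = 1) : 0 ≤ z := by
  unfold tN at h
  have h1 : sc st (em 1 0) ((em 1 0) ^ z) = em (2 ^ z) 0 := by
    unfold sc
    rw [em_zpow, bb_em, em_mul, em_inv, em_mul]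
    simp
  rw [h1] at h
  obtain ⟨y, hy⟩ := tI_sound h
  by_contra hz
  push Not at hz
  have h2 : (2 : ℚ) ^ z < 1 := zpow_lt_one_of_neg₀ (by norm_num) hz
  have h3 : (0 : ℚ) < 2 ^ z := zpow_pos (by norm_num) z
  rw [hy] at h2 h3
  have h4 : y < 1 := by exact_mod_cast h2
  have h5 : 0 < y := by exact_mod_cast h3
  omega

theorem tD_sound {z : ℤ} {n : ℕ} (h : tD (em 1 0) st ((em 1 0) ^ z) ((em 1 0) ^ (n : ℤ)) = 1) :
    (2 : ℤ) ^ n ∣ z := by
  unfold tD at h
  have h1 : (bb st ((em 1 0) ^ (n : ℤ)))⁻¹ * (em 1 0) ^ z * bb st ((em 1 0) ^ (n : ℤ)) =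
      em (2 ^ (-(n : ℤ)) * z) 0 := by
    rw [em_zpow, bb_em, em_zpow, em_inv, em_mul, em_mul]
    simp
  rw [h1] at h
  obtain ⟨y, hy⟩ := tI_sound h
  refine ⟨y, ?_⟩
  have h2 : (z : ℚ) = 2 ^ n * y := by
    rw [← hy, ← mul_assoc, zpow_neg, zpow_natCast, mul_inv_cancel₀ (by positivity), one_mul]
  exact_mod_cast h2

theorem rU_sound {x : Gh} (h : tC (em 1 0) (rU (em 1 0) st x) = 1) :
    ∃ u s : ℚ, rU (em 1 0) st x = em u 0 ∧ rS (em 1 0) st x = em s 0 := by
  obtain ⟨u, hu⟩ := tC_sound h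
  have hb := bb_em 1
  rw [Int.cast_one] at hb
  have hx : x * em 1 0 * x⁻¹ = em (-u) 1 := by
    have h1 : x * em 1 0 * x⁻¹ = (rU (em 1 0) st x)⁻¹ * bb st (em 1 0) := by
      unfold rU; group
    rw [h1, hu, hb, em_inv, em_mul]
    simp
  obtain ⟨s, hs⟩ := centralizer (rS (em 1 0) st x) (by
    have h2 : rS (em 1 0) st x * em 1 0 * (rS (em 1 0) st x)⁻¹ = em 1 0 := by
      have h3 : rS (em 1 0) st x * em 1 0 * (rS (em 1 0) st x)⁻¹ =
          st⁻¹ * ((rU (em 1 0) st x)⁻¹ * (x * em 1 0 * x⁻¹) * (rU (em 1 0) st x)) * st := by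
        unfold rS; group
      rw [h3, hx, hu, em_inv, em_mul, em_mul]
      have h4 : em (-(2 ^ (-(0 : ℤ)) * u) + 2 ^ (-(0 : ℤ)) * -u + 2 ^ (-(0 : ℤ) + 1) * u)
          (-(0 : ℤ) + 1 + 0) = bb st (em 1 0) := by
        rw [hb]
        norm_num
        congr 1
        ring
      rw [h4]
      unfold bb
      group
    have h5 := congrArg (· * rS (em 1 0) st x) h2
    simp only [inv_mul_cancel_right] at h5
    exact h5.symm)
  exact ⟨u, s, hu, hs⟩

end Pool.Agent.KS6_35.OR
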