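import Pool.Agent.KS6_35.OR.Rel
import Pool.Agent.KS6_35.OR.Core

/-! Functions represented by words. -/

set_option autoImplicit false

namespace Pool.Agent.KS6_35.OR

/-- words in the constants `a, t, s` and in `x, y, p` -/
abbrev Wd : Type := FreeGroup (Fin 3 ⊕ Fin 3)

def wA : Wd := FreeGroup.of (Sum.inl 0)
def wT : Wd := FreeGroup.of (Sum.inl 1)
def wS : Wd := FreeGroup.of (Sum.inl 2)
def wX : Wd := FreeGroup.of (Sum.inr 0)
def wY : Wd := FreeGroup.of (Sum.inr 1)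
def wP : Wd := FreeGroup.of (Sum.inr 2)

/-- the numbers `n, j, v, k` encoded by `y`, `x`, `x`, `p` -/
structure Env where
  n : ℕ
  j : ℕ
  v : ℕ
  k : ℕ

/-- the homomorphism `F` evaluates the words for the environment `ρ` -/
structure Good {K : Type} [Group K] (a t : K) (F : Wd →* K) (ρ : Env) : Prop where
  rel : bb t a * a * (bb t a)⁻¹ = a ^ 2
  hA : F wA = a
  hT : F wT = t
  hV : F (rU wA wT wX) = a ^ (ρ.v : ℤ)
  hJ : F (rS wA wT wX) = a ^ (ρ.j : ℤ)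
  hN : F wY = a ^ (ρ.n : ℤ)
  hK : F wP = a ^ (ρ.k : ℤ)

/-- `f` is represented by a word -/
def Rep (f : Env → ℤ) : Prop :=
  ∃ w : Wd, ∀ (K : Type) [Group K] (a t : K) (F : Wd →* K) (ρ : Env), Good a t F ρ →
    F w = a ^ f ρ

theorem rep_const (c : ℤ) : Rep (fun _ => c) :=
  ⟨wA ^ c, fun K _ a t F ρ h => by rw [map_zpow, h.hA]⟩

theorem rep_n : Rep (fun ρ => ρ.n) := ⟨wY, fun _ _ _ _ _ _ h => h.hN⟩
theorem rep_k : Rep (fun ρ => ρ.k) := ⟨wP, fun _ _ _ _ _ _ h => h.hK⟩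
theorem rep_v : Rep (fun ρ => ρ.v) := ⟨rU wA wT wX, fun _ _ _ _ _ _ h => h.hV⟩
theorem rep_j : Rep (fun ρ => ρ.j) := ⟨rS wA wT wX, fun _ _ _ _ _ _ h => h.hJ⟩

theorem Rep.add {f g : Env → ℤ} (hf : Rep f) (hg : Rep g) : Rep (fun ρ => f ρ + g ρ) := by
  obtain ⟨w, hw⟩ := hf
  obtain ⟨w', hw'⟩ := hg
  exact ⟨w * w', fun K _ a t F ρ h => by
    rw [map_mul, hw K a t F ρ h, hw' K a t F ρ h, ← zpow_add]⟩

theorem Rep.zmul {f : Env → ℤ} (hf : Rep f) (c : ℤ) : Rep (fun ρ => c * f ρ) := by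
  obtain ⟨w, hw⟩ := hf
  exact ⟨w ^ c, fun K _ a t F ρ h => by
    rw [map_zpow, hw K a t F ρ h, ← zpow_mul, mul_comm]⟩

theorem Rep.sub {f g : Env → ℤ} (hf : Rep f) (hg : Rep g) : Rep (fun ρ => f ρ - g ρ) := by
  obtain ⟨w, hw⟩ := hf
  obtain ⟨w', hw'⟩ := hg
  exact ⟨w * w'⁻¹, fun K _ a t F ρ h => by
    rw [map_mul, map_inv, hw K a t F ρ h, hw' K a t F ρ h, ← zpow_neg, ← zpow_add]
    rfl⟩

theorem Rep.shift {f : Env → ℤ} {e : Env → ℕ} (hf : Rep f) (he : Rep (fun ρ => e ρ)) :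
    Rep (fun ρ => f ρ * 2 ^ e ρ) := by
  obtain ⟨w, hw⟩ := hf
  obtain ⟨w', hw'⟩ := he
  exact ⟨sc wT w w', fun K _ a t F ρ h => by
    rw [map_sc, hw K a t F ρ h, hw' K a t F ρ h, h.hT]
    exact sc_nat h.rel _ _⟩

open MvPolynomial in
theorem Rep.poly {r : ℕ} {B : Env → ℤ} (hB : Rep B) {e : Fin r → Env → ℕ}
    (he : ∀ l, Rep (fun ρ => e l ρ)) (N : MvPolynomial (Fin r) ℤ) :
    Rep (fun ρ => eval (fun l => 2 ^ e l ρ) N * B ρ) := by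
  induction N using MvPolynomial.induction_on with
  | C c =>
    have := hB.zmul c
    simpa using this
  | add p q hp hq =>
    have := hp.add hq
    refine (Iff.of_eq (congrArg Rep ?_)).1 this
    funext ρ
    rw [map_add]; ring
  | mul_X p l hp =>
    have := hp.shift (he l)
    refine (Iff.of_eq (congrArg Rep ?_)).1 this
    funext ρ
    rw [map_mul, eval_X]; ring

section

variable (D₀ : ℕ)

/-- the number `D = 2 ^ (n + D₀)` -/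
def bigD (ρ : Env) : ℕ := 2 ^ (ρ.n + D₀)

/-- powers of `D` -/
theorem rep_pow (c : ℕ) : Rep (fun ρ => (bigD D₀ ρ ^ c : ℕ)) := by
  have h1 : Rep (fun ρ => ((c * (ρ.n + D₀) : ℕ) : ℤ)) := by
    have := (rep_n.add (rep_const D₀)).zmul c
    refine (Iff.of_eq (congrArg Rep ?_)).1 this
    funext ρ; push_cast; ring
  have h2 := (rep_const 1).shift h1
  refine (Iff.of_eq (congrArg Rep ?_)).1 h2
  funext ρ
  unfold bigD
  push_cast
  rw [one_mul, ← pow_mul, mul_comm]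

theorem Rep.mulD {f : Env → ℤ} (hf : Rep f) : Rep (fun ρ => f ρ * bigD D₀ ρ) := by
  have h1 : Rep (fun ρ => ((ρ.n + D₀ : ℕ) : ℤ)) := by
    have := rep_n.add (rep_const D₀)
    refine (Iff.of_eq (congrArg Rep ?_)).1 this
    funext ρ; push_cast; ring
  have h2 := hf.shift h1
  refine (Iff.of_eq (congrArg Rep ?_)).1 h2
  funext ρ
  unfold bigD
  push_cast
  rfl

/-- the pointer `J = k + j D` -/
def ptr (ρ : Env) : ℕ := ρ.k + ρ.j * bigD D₀ ρ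

theorem rep_ptr : Rep (fun ρ => ptr D₀ ρ) := by
  have := rep_k.add (rep_j.mulD D₀)
  refine (Iff.of_eq (congrArg Rep ?_)).1 this
  funext ρ; simp [ptr]

theorem rep_ptrD : Rep (fun ρ => ((bigD D₀ ρ * ptr D₀ ρ : ℕ) : ℤ)) := by
  have := (rep_ptr D₀).mulD D₀
  refine (Iff.of_eq (congrArg Rep ?_)).1 this
  funext ρ; push_cast; ring

theorem rep_ptrD1 : Rep (fun ρ => ((bigD D₀ ρ * (ptr D₀ ρ + 1) : ℕ) : ℤ)) := by
  have := ((rep_ptr D₀).add (rep_const 1)).mulD D₀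
  refine (Iff.of_eq (congrArg Rep ?_)).1 this
  funext ρ; push_cast; ring

theorem rep_wt {m : ℕ} (l : Fin (m + 1)) :
    Rep (fun ρ => ((bigD D₀ ρ * wt m (bigD D₀ ρ) l : ℕ) : ℤ)) := by
  have := (rep_pow D₀ (m + 2)).add (rep_pow D₀ (l + 1))
  refine (Iff.of_eq (congrArg Rep ?_)).1 this
  funext ρ
  unfold wt
  push_cast
  ring

open MvPolynomial in
/-- the number in the divisibility test -/
noncomputable def bigT {m : ℕ} (N : MvPolynomial (Fin (m + 1)) ℤ) (d : ℕ) (ρ : Env) : ℤ :=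
  eval (fun l => 2 ^ (bigD D₀ ρ * wt m (bigD D₀ ρ) l)) N -
    (∏ l, (1 - 2 ^ (bigD D₀ ρ * wt m (bigD D₀ ρ) l)) ^ (d + 1)) *
      ((ρ.v : ℤ) + 2 ^ (bigD D₀ ρ * ptr D₀ ρ))

open MvPolynomial in
theorem rep_bigT {m : ℕ} (N : MvPolynomial (Fin (m + 1)) ℤ) (d : ℕ) : Rep (bigT D₀ N d) := by
  have h1 := (rep_const 1).poly (e := fun (l : Fin (m + 1)) ρ => bigD D₀ ρ * wt m (bigD D₀ ρ) l)
    (rep_wt D₀) N
  have h2 : Rep (fun ρ => (ρ.v : ℤ) + 2 ^ (bigD D₀ ρ * ptr D₀ ρ)) := by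
    have := rep_v.add ((rep_const 1).shift (rep_ptrD D₀))
    refine (Iff.of_eq (congrArg Rep ?_)).1 this
    funext ρ; ring
  have h3 := h2.poly (e := fun (l : Fin (m + 1)) ρ => bigD D₀ ρ * wt m (bigD D₀ ρ) l)
    (rep_wt D₀) (∏ l, (1 - X l) ^ (d + 1))
  refine (Iff.of_eq (congrArg Rep ?_)).1 (h1.sub h3)
  funext ρ
  unfold bigT
  simp only [map_prod, map_pow, map_sub, map_one, eval_X, mul_one]

/-- the arithmetical conditions -/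
def Cond {m : ℕ} (N : MvPolynomial (Fin (m + 1)) ℤ) (d : ℕ) (ρ : Env) : Prop :=
  ρ.k < bigD D₀ ρ ∧ ptr D₀ ρ < bigD D₀ ρ ^ (m + 1) * 2 ^ ρ.n ∧
    ρ.v < 2 ^ (bigD D₀ ρ * ptr D₀ ρ) ∧
      (2 : ℤ) ^ (bigD D₀ ρ * (ptr D₀ ρ + 1)) ∣ bigT D₀ N d ρ

/-- the list of the tests -/
theorem exists_tests {m : ℕ} (N : MvPolynomial (Fin (m + 1)) ℤ) (d : ℕ) :
    ∃ L : List Wd,
      (∀ (K : Type) [Group K] (a t : K) (F : Wd →* K) (ρ : Env), Good a t F ρ →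
        Cond D₀ N d ρ → ∀ w ∈ L, F w = 1) ∧
      (∀ (F : Wd →* Gh) (k : ℕ), F wA = em 1 0 → F wT = st → F wP = (em 1 0) ^ (k : ℤ) →
        (∀ w ∈ L, F w = 1) → ∃ ρ : Env, ρ.k = k ∧ F wY = (em 1 0) ^ (ρ.n : ℤ) ∧ Cond D₀ N d ρ) := by
  obtain ⟨w2, h2⟩ := (rep_pow D₀ 1).sub (rep_k.add (rep_const 1))
  obtain ⟨w3, h3⟩ := ((rep_pow D₀ (m + 1)).shift rep_n).sub ((rep_ptr D₀).add (rep_const 1))
  obtain ⟨w4, h4⟩ := ((rep_const 1).shift (rep_ptrD D₀)).sub (rep_v.add (rep_const 1))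
  obtain ⟨w5, h5⟩ := rep_bigT D₀ N d
  obtain ⟨w6, h6⟩ := rep_ptrD1 D₀
  beta_reduce at h2 h3 h4 h6
  refine ⟨[tC wA (rU wA wT wX), tI wA wT (rU wA wT wX), tI wA wT (rS wA wT wX), tC wA wY,
    tI wA wT wY, tN wA wT (rU wA wT wX), tN wA wT (rS wA wT wX), tN wA wT wY,
    tN wA wT w2, tN wA wT w3, tN wA wT w4, tD wA wT w5 w6], ?_, ?_⟩
  · intro K _ a t F ρ hg hc w hw
    obtain ⟨c2, c3, c4, c5⟩ := hc
    have hrel := hg.rel
    simp only [List.mem_cons, List.not_mem_nil, or_false] at hw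
    rcases hw with rfl | rfl | rfl | rfl | rfl | rfl | rfl | rfl | rfl | rfl | rfl | rfl
    · rw [map_tC, hg.hA, hg.hV]; unfold tC; group
    · rw [map_tI, hg.hA, hg.hT, hg.hV]; exact tI_zpow hrel _
    · rw [map_tI, hg.hA, hg.hT, hg.hJ]; exact tI_zpow hrel _
    · rw [map_tC, hg.hA, hg.hN]; unfold tC; group
    · rw [map_tI, hg.hA, hg.hT, hg.hN]; exact tI_zpow hrel _
    · rw [map_tN, hg.hA, hg.hT, hg.hV]; exact tN_nat hrel _
    · rw [map_tN, hg.hA, hg.hT, hg.hJ]; exact tN_nat hrel _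
    · rw [map_tN, hg.hA, hg.hT, hg.hN]; exact tN_nat hrel _
    · rw [map_tN, hg.hA, hg.hT, h2 K a t F ρ hg]
      have : ((ρ.k + 1 : ℕ) : ℤ) ≤ (bigD D₀ ρ ^ 1 : ℕ) := by
        rw [pow_one]; exact_mod_cast c2
      obtain ⟨q, hq⟩ := Int.eq_ofNat_of_zero_le
        (show (0 : ℤ) ≤ ((bigD D₀ ρ ^ 1 : ℕ) : ℤ) - ((ρ.k : ℤ) + 1) by push_cast at this ⊢; omega)
      rw [hq]; exact tN_nat hrel _
    · rw [map_tN, hg.hA, hg.hT, h3 K a t F ρ hg]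
      have : ((ptr D₀ ρ + 1 : ℕ) : ℤ) ≤ (bigD D₀ ρ ^ (m + 1) * 2 ^ ρ.n : ℕ) := by
        exact_mod_cast c3
      obtain ⟨q, hq⟩ := Int.eq_ofNat_of_zero_le
        (show (0 : ℤ) ≤ ((bigD D₀ ρ ^ (m + 1) : ℕ) : ℤ) * 2 ^ ρ.n - ((ptr D₀ ρ : ℤ) + 1) by
          push_cast at this ⊢; omega)
      rw [hq]; exact tN_nat hrel _
    · rw [map_tN, hg.hA, hg.hT, h4 K a t F ρ hg]
      have : ((ρ.v + 1 : ℕ) : ℤ) ≤ (2 ^ (bigD D₀ ρ * ptr D₀ ρ) : ℕ) := by exact_mod_cast c4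
      obtain ⟨q, hq⟩ := Int.eq_ofNat_of_zero_le
        (show (0 : ℤ) ≤ 1 * 2 ^ (bigD D₀ ρ * ptr D₀ ρ) - ((ρ.v : ℤ) + 1) by
          push_cast at this ⊢; omega)
      rw [hq]; exact tN_nat hrel _
    · rw [map_tD, hg.hA, hg.hT, h5 K a t F ρ hg, h6 K a t F ρ hg]
      obtain ⟨q, hq⟩ := c5
      rw [hq, mul_comm]
      exact tD_ok hrel _ _
  · intro F k hA hT hP hL
    have g1 := hL _ (by simp : tC wA (rU wA wT wX) ∈ _)
    have g2 := hL _ (by simp : tI wA wT (rU wA wT wX) ∈ _)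
    have g3 := hL _ (by simp : tI wA wT (rS wA wT wX) ∈ _)
    have g4 := hL _ (by simp : tC wA wY ∈ _)
    have g5 := hL _ (by simp : tI wA wT wY ∈ _)
    have g6 := hL _ (by simp : tN wA wT (rU wA wT wX) ∈ _)
    have g7 := hL _ (by simp : tN wA wT (rS wA wT wX) ∈ _)
    have g8 := hL _ (by simp : tN wA wT wY ∈ _)
    have g10 := hL _ (by simp : tN wA wT w2 ∈ _)
    have g11 := hL _ (by simp : tN wA wT w3 ∈ _)
    have g12 := hL _ (by simp : tN wA wT w4 ∈ _)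
    have g13 := hL _ (by simp : tD wA wT w5 w6 ∈ _)
    rw [map_tC, hA, map_rU, hA, hT] at g1
    obtain ⟨u, s, hu, hs⟩ := rU_sound g1
    have hu' : F (rU wA wT wX) = em u 0 := by rw [map_rU, hA, hT, hu]
    have hs' : F (rS wA wT wX) = em s 0 := by rw [map_rS, hA, hT, hs]
    rw [map_tI, hA, hT, hu'] at g2
    rw [map_tI, hA, hT, hs'] at g3
    obtain ⟨zu, rfl⟩ := tI_sound g2
    obtain ⟨zs, rfl⟩ := tI_sound g3
    rw [map_tC, hA] at g4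
    obtain ⟨q, hq⟩ := tC_sound g4
    rw [map_tI, hA, hT, hq] at g5
    obtain ⟨zq, rfl⟩ := tI_sound g5
    rw [← em_zpow] at hu' hs' hq
    rw [map_tN, hA, hT, hu'] at g6
    rw [map_tN, hA, hT, hs'] at g7
    rw [map_tN, hA, hT, hq] at g8
    obtain ⟨v, rfl⟩ := Int.eq_ofNat_of_zero_le (tN_sound g6)
    obtain ⟨j, rfl⟩ := Int.eq_ofNat_of_zero_le (tN_sound g7)
    obtain ⟨n, rfl⟩ := Int.eq_ofNat_of_zero_le (tN_sound g8)
    let ρ : Env := ⟨n, j, v, k⟩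
    have hg : Good (em 1 0) st F ρ := ⟨rel_Gh, hA, hT, hu', hs', hq, hP⟩
    rw [map_tN, hA, hT, h2 Gh _ _ F ρ hg] at g10
    rw [map_tN, hA, hT, h3 Gh _ _ F ρ hg] at g11
    rw [map_tN, hA, hT, h4 Gh _ _ F ρ hg] at g12
    rw [map_tD, hA, hT, h5 Gh _ _ F ρ hg, h6 Gh _ _ F ρ hg] at g13
    have c2 := tN_sound g10
    have c3 := tN_sound g11
    have c4 := tN_sound g12
    have c5 := tD_sound g13
    refine ⟨ρ, rfl, hq, ?_, ?_, ?_, c5⟩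
    · have : ((ρ.k + 1 : ℕ) : ℤ) ≤ (bigD D₀ ρ ^ 1 : ℕ) := by push_cast at c2 ⊢; omega
      rw [pow_one] at this
      exact_mod_cast this
    · have : ((ptr D₀ ρ + 1 : ℕ) : ℤ) ≤ (bigD D₀ ρ ^ (m + 1) * 2 ^ ρ.n : ℕ) := by
        push_cast at c3 ⊢; omega
      exact_mod_cast this
    · have : ((ρ.v + 1 : ℕ) : ℤ) ≤ (2 ^ (bigD D₀ ρ * ptr D₀ ρ) : ℕ) := by push_cast at c4 ⊢; omega
      exact_mod_cast this

end

end Pool.Agent.KS6_35.OR
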